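import Pool.Agent.H982Z.Scat.Defs

/-!
# Amorphous sets and compactifications of discrete spaces inside a model of set theory

A structure for the language of set theory is a type `M` with a binary relation `E`
(`E x y` means that `x` is an element of `y` in the structure). `IsZF`, `Sub`, `IsBij`, `IsFin`,
`Compact` and `Scattered` are from the imported files.
-/

set_option autoImplicit false

namespace Pool.Agent.H982Z.Nas

open Pool.Agent.H164Z.Bspt Pool.Agent.H982Z.Scat

universe u

variable {M : Type u} (E : M → M → Prop)

/-- `X` is amorphous: it is infinite and every infinite subset `Y` has finite complement `W`. -/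
def Amorphous (X : M) : Prop :=
  ¬ IsFin E X ∧ ∀ Y W, Sub E Y X → ¬ IsFin E Y → (∀ t, E t W ↔ E t X ∧ ¬ E t Y) → IsFin E W

/-- There are no amorphous sets. -/
def NAS : Prop := ∀ X, ¬ Amorphous E X

/-- `τ` is a topology on `K`: a family of subsets of `K` that contains `K` and is closed under
intersections of two members and under unions of subfamilies. -/
structure IsTop (K τ : M) : Prop where
  sub : ∀ U, E U τ → Sub E U K
  univ : E K τ
  inter : ∀ U V W, E U τ → E V τ → (∀ t, E t W ↔ E t U ∧ E t V) → E W τ
  union : ∀ C W, Sub E C τ → (∀ t, E t W ↔ ∃ U, E U C ∧ E t U) → E W τ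

/-- The space `K` with topology `τ` is Hausdorff. -/
def Hausdorff (K τ : M) : Prop :=
  ∀ x y, E x K → E y K → x ≠ y →
    ∃ U V, E U τ ∧ E V τ ∧ E x U ∧ E y V ∧ ∀ t, ¬ (E t U ∧ E t V)

/-- The space `K` with topology `τ` is a Hausdorff compactification of the discrete space on `D`:
it is a compact Hausdorff space with a dense subspace `D'` that is homeomorphic to the discrete
space on `D`, that is, `D'` is in bijection with `D` and every subset of `D'` is open in the
subspace topology. -/
def IsCompactification (D K τ : M) : Prop :=
  IsTop E K τ ∧ Hausdorff E K τ ∧ Compact E K τ ∧ ∃ D' h, Sub E D' K ∧ IsBij E h D D' ∧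
    (∀ U, E U τ → (∃ x, E x U) → ∃ x, E x U ∧ E x D') ∧
    ∀ A, Sub E A D' → ∃ U, E U τ ∧ ∀ t, E t A ↔ E t U ∧ E t D'

/-- Every infinite discrete space has a non-scattered Hausdorff compactification. -/
def INSHC : Prop :=
  ∀ D, ¬ IsFin E D → ∃ K τ, IsCompactification E D K τ ∧ ¬ Scattered E τ K

end Pool.Agent.H982Z.Nas
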