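import Pool.Agent.H982Z.Sym.Ext

/-!
# The notion of forcing
-/

set_option autoImplicit false

namespace Pool.Agent.H982Z.Nas

open Pool.Agent.H164Z.Bspt Pool.Agent.H982Z.Sym

/-- Points of two sorts. -/
abbrev Pt : Type := Bool × ℕ

/-- The group. -/
abbrev Gp : Type := (Bool → Equiv.Perm ℕ) × (ℕ × ℕ → Equiv.Perm Bool)

/-- Atomic pieces of information. -/
inductive At : Type
  | y (i b j : ℕ) (e : Bool) : At
  | d (k b : ℕ) (e : Bool) : At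

instance : Countable At :=
  Function.Surjective.countable
    (f := fun s : (ℕ × ℕ × ℕ × Bool) ⊕ (ℕ × ℕ × Bool) => match s with
      | .inl t => At.y t.1 t.2.1 t.2.2.1 t.2.2.2
      | .inr t => At.d t.1 t.2.1 t.2.2) fun z => match z with
    | .y i b j e => ⟨.inl (i, b, j, e), rfl⟩
    | .d k b e => ⟨.inr (k, b, e), rfl⟩

/-- The coordinate. -/
def At.co : At → (ℕ × ℕ) ⊕ (ℕ × ℕ)
  | .y i b _ _ => .inl (i, b)
  | .d k b _ => .inr (k, b)

/-- The points involved. -/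
def At.pts : At → Finset Pt
  | .y _ b _ _ => {(false, b)}
  | .d k b _ => {(true, k), (false, b)}

/-- The flips involved. -/
def At.tgs : At → Finset (ℕ × ℕ)
  | .y i _ j _ => {(i, j)}
  | .d _ _ _ => ∅

/-- Action on points. -/
def ap (γ : Gp) (x : Pt) : Pt := (x.1, γ.1 x.1 x.2)

theorem ap_mul (γ δ : Gp) (x : Pt) : ap (γ * δ) x = ap γ (ap δ x) := rfl

theorem ap_inv_ap (γ : Gp) (x : Pt) : ap γ⁻¹ (ap γ x) = x := by
  rw [← ap_mul, inv_mul_cancel]; rfl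

theorem ap_ap_inv (γ : Gp) (x : Pt) : ap γ (ap γ⁻¹ x) = x := by
  rw [← ap_mul, mul_inv_cancel]; rfl

theorem ap_inj (γ : Gp) : Function.Injective (ap γ) :=
  Function.LeftInverse.injective (ap_inv_ap γ)

instance : MulAction Gp At where
  smul γ z := match z with
    | .y i b j e => .y i (γ.1 false b) j (γ.2 (i, j) e)
    | .d k b e => .d (γ.1 true k) (γ.1 false b) e
  one_smul z := by cases z <;> rfl
  mul_smul γ δ z := by cases z <;> rfl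

theorem sm_y (γ : Gp) (i b j : ℕ) (e : Bool) :
    γ • At.y i b j e = .y i (γ.1 false b) j (γ.2 (i, j) e) := rfl

theorem sm_d (γ : Gp) (k b : ℕ) (e : Bool) :
    γ • At.d k b e = .d (γ.1 true k) (γ.1 false b) e := rfl

theorem co_sm (γ : Gp) {z z' : At} (h : z.co = z'.co) : (γ • z).co = (γ • z').co := by
  cases z <;> cases z' <;> simp only [At.co, Sum.inl.injEq, Sum.inr.injEq, Prod.mk.injEq,
    reduceCtorEq, sm_y, sm_d] at h ⊢
  · exact ⟨h.1, by rw [h.2]⟩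
  · exact ⟨by rw [h.1], by rw [h.2]⟩

theorem pts_co {z z' : At} (h : z.co = z'.co) : z.pts = z'.pts := by
  cases z <;> cases z' <;> simp only [At.co, Sum.inl.injEq, Sum.inr.injEq, Prod.mk.injEq,
    reduceCtorEq, At.pts] at h ⊢
  · rw [h.2]
  · rw [h.1, h.2]

theorem pts_sm (γ : Gp) (z : At) : (γ • z).pts = z.pts.image (ap γ) := by
  cases z <;> simp [At.pts, sm_y, sm_d, ap]

theorem sm_congr {γ δ : Gp} {z : At} (h : ∀ x ∈ z.pts, ap γ x = ap δ x)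
    (h' : ∀ t ∈ z.tgs, γ.2 t = δ.2 t) : γ • z = δ • z := by
  cases z with
  | y i b j e =>
    have h1 := congrArg Prod.snd (h (false, b) (by simp [At.pts]))
    have h2 := h' (i, j) (by simp [At.tgs])
    simp only [ap] at h1
    rw [sm_y, sm_y, h1, h2]
  | d k b e =>
    have h1 := congrArg Prod.snd (h (false, b) (by simp [At.pts]))
    have h2 := congrArg Prod.snd (h (true, k) (by simp [At.pts]))
    simp only [ap] at h1 h2
    rw [sm_d, sm_d, h1, h2]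

theorem sm_fix {γ : Gp} {z : At} (h : ∀ x ∈ z.pts, ap γ x = x)
    (h' : ∀ t ∈ z.tgs, γ.2 t = 1) : γ • z = z :=
  (sm_congr (δ := 1) h h').trans (one_smul _ _)

theorem pts_sort {z : At} {a b : Pt} (ha : a ∈ z.pts) (hb : b ∈ z.pts) (h : a.1 = b.1) :
    a = b := by
  cases z <;> simp only [At.pts, Finset.mem_singleton, Finset.mem_insert] at ha hb
  · rw [ha, hb]
  · rcases ha with rfl | rfl <;> rcases hb with rfl | rfl <;> simp_all

/-- Conditions. -/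
def Cn : Type := {s : Finset At // ∀ z ∈ s, ∀ z' ∈ s, z.co = z'.co → z = z'}

instance : Countable Cn := inferInstanceAs (Countable {_s : Finset At // _})

instance : Preorder Cn where
  le p q := ∀ z ∈ q.1, z ∈ p.1
  le_refl _ _ h := h
  le_trans _ _ _ h h' z h1 := h z (h' z h1)

theorem le_def {p q : Cn} : p ≤ q ↔ ∀ z ∈ q.1, z ∈ p.1 := Iff.rfl

/-- The trivial condition. -/
def top : Cn := ⟨∅, by simp⟩

open Classical in
/-- Action on conditions. -/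
noncomputable def smC (γ : Gp) (p : Cn) : Cn :=
  ⟨p.1.image (γ • ·), fun z hz z' hz' h => by
    obtain ⟨u, hu, rfl⟩ := Finset.mem_image.1 hz
    obtain ⟨u', hu', rfl⟩ := Finset.mem_image.1 hz'
    have := co_sm γ⁻¹ h
    rw [inv_smul_smul, inv_smul_smul] at this
    rw [p.2 u hu u' hu' this]⟩

theorem mem_smC (γ : Gp) (p : Cn) (z : At) : z ∈ (smC γ p).1 ↔ γ⁻¹ • z ∈ p.1 := by
  simp only [smC, Finset.mem_image]
  exact ⟨fun ⟨u, hu, h⟩ => by rwa [← h, inv_smul_smul], fun h => ⟨_, h, smul_inv_smul _ _⟩⟩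

noncomputable instance : MulAction Gp Cn where
  smul := smC
  one_smul p := Subtype.ext (Finset.ext fun z => (mem_smC 1 p z).trans (by
    rw [inv_one, one_smul]))
  mul_smul γ δ p := Subtype.ext (Finset.ext fun z => (mem_smC _ p z).trans (by
    rw [mul_inv_rev, mul_smul]
    exact ((mem_smC γ _ z).trans (mem_smC δ p _)).symm))

theorem mem_sm {γ : Gp} {p : Cn} {z : At} : z ∈ (γ • p).1 ↔ γ⁻¹ • z ∈ p.1 := mem_smC γ p z

theorem mem_inv_sm {γ : Gp} {p : Cn} {z : At} : z ∈ (γ⁻¹ • p).1 ↔ γ • z ∈ p.1 := by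
  rw [mem_sm, inv_inv]

instance : CovariantClass Gp Cn (· • ·) (· ≤ ·) :=
  ⟨fun _ _ _ h _ hz => mem_sm.2 (h _ (mem_sm.1 hz))⟩

theorem le_sm_iff {γ : Gp} {p q : Cn} : q ≤ γ • p ↔ ∀ z ∈ p.1, γ • z ∈ q.1 :=
  ⟨fun h z hz => h _ (mem_sm.2 (by rwa [inv_smul_smul])), fun h z hz => by
    have := h _ (mem_sm.1 hz)
    rwa [smul_inv_smul] at this⟩

theorem common {p q : Cn} (h : ∀ z ∈ p.1, ∀ z' ∈ q.1, z.co = z'.co → z = z') :
    ∃ r, r ≤ p ∧ r ≤ q ∧ ∀ z ∈ r.1, z ∈ p.1 ∨ z ∈ q.1 := by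
  classical
  refine ⟨⟨p.1 ∪ q.1, fun z hz z' hz' h1 => ?_⟩, fun z hz => Finset.mem_union_left _ hz,
    fun z hz => Finset.mem_union_right _ hz, fun z hz => Finset.mem_union.1 hz⟩
  rcases Finset.mem_union.1 hz with h2 | h2 <;> rcases Finset.mem_union.1 hz' with h3 | h3
  · exact p.2 z h2 z' h3 h1
  · exact h z h2 z' h3 h1
  · exact (h z' h3 z h2 h1.symm).symm
  · exact q.2 z h2 z' h3 h1

theorem ex_add (p : Cn) (z : At) (h : ∀ z' ∈ p.1, z'.co ≠ z.co) :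
    ∃ r ≤ p, z ∈ r.1 ∧ ∀ z' ∈ r.1, z' ∈ p.1 ∨ z' = z := by
  obtain ⟨r, h1, h2, h3⟩ := common (p := p) (q := ⟨{z}, by simp⟩) fun u hu u' hu' h1 =>
    absurd (Finset.mem_singleton.1 hu' ▸ h1) (h u hu)
  exact ⟨r, h1, h2 z (Finset.mem_singleton_self z), fun u hu =>
    (h3 u hu).imp_right Finset.mem_singleton.1⟩

/-- The points of a condition. -/
def Cn.pts (p : Cn) : Finset Pt := p.1.biUnion At.pts

/-- The flips of a condition. -/
def Cn.tgs (p : Cn) : Finset (ℕ × ℕ) := p.1.biUnion At.tgs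

theorem mem_pts {p : Cn} {z : At} (h : z ∈ p.1) {x : Pt} (hx : x ∈ z.pts) : x ∈ p.pts :=
  Finset.mem_biUnion.2 ⟨z, h, hx⟩

theorem mem_tgs {p : Cn} {z : At} (h : z ∈ p.1) {x : ℕ × ℕ} (hx : x ∈ z.tgs) : x ∈ p.tgs :=
  Finset.mem_biUnion.2 ⟨z, h, hx⟩

theorem ex_le_sm (r q : Cn) (γ : Gp)
    (h : ∀ z ∈ q.1, γ • z ∈ r.1 ∨ ∃ x ∈ z.pts, ap γ x ∉ r.pts) :
    ∃ s, s ≤ r ∧ s ≤ γ • q ∧ ∀ z ∈ s.1, z ∈ r.1 ∨ γ⁻¹ • z ∈ q.1 := by
  obtain ⟨s, h1, h2, h3⟩ := common (p := r) (q := γ • q) fun z hz z' hz' h1 => by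
    rcases h _ (mem_sm.1 hz') with h2 | ⟨x, h2, h3⟩
    · rw [smul_inv_smul] at h2
      exact r.2 z hz z' h2 h1
    · refine absurd (mem_pts hz ?_) h3
      rw [pts_co h1, ← smul_inv_smul γ z', pts_sm]
      exact Finset.mem_image_of_mem _ h2
  exact ⟨s, h1, h2, fun z hz => (h3 z hz).imp_right mem_sm.1⟩

/-- Restriction. -/
def res (F : Finset Pt) (p : Cn) : Cn :=
  ⟨p.1.filter fun z => z.pts ⊆ F, fun z hz z' hz' =>
    p.2 z (Finset.mem_filter.1 hz).1 z' (Finset.mem_filter.1 hz').1⟩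

theorem mem_res {F : Finset Pt} {p : Cn} {z : At} : z ∈ (res F p).1 ↔ z ∈ p.1 ∧ z.pts ⊆ F :=
  Finset.mem_filter

theorem le_res (F : Finset Pt) (p : Cn) : p ≤ res F p := fun _ hz => (mem_res.1 hz).1

/-- Stabilizers. -/
def fx (F : Finset Pt) (T : Finset (ℕ × ℕ)) : Subgroup Gp where
  carrier := {γ | (∀ x ∈ F, ap γ x = x) ∧ ∀ t ∈ T, γ.2 t = 1}
  one_mem' := ⟨fun _ _ => rfl, fun _ _ => rfl⟩
  mul_mem' := fun {γ δ} h1 h2 => ⟨fun x hx => by rw [ap_mul, h2.1 x hx, h1.1 x hx],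
    fun t ht => by
      change γ.2 t * δ.2 t = 1
      rw [h1.2 t ht, h2.2 t ht, one_mul]⟩
  inv_mem' := fun {γ} h => ⟨fun x hx => by
      have := ap_inv_ap γ x
      rwa [h.1 x hx] at this, fun t ht => by
      change (γ.2 t)⁻¹ = 1
      rw [h.2 t ht, inv_one]⟩

theorem fx_mono {F F' : Finset Pt} {T T' : Finset (ℕ × ℕ)} (h : F ⊆ F') (h' : T ⊆ T') :
    fx F' T' ≤ fx F T := fun _ h1 => ⟨fun x hx => h1.1 x (h hx), fun t ht => h1.2 t (h' ht)⟩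

/-- The filter of finite supports. -/
def FS : NF Gp where
  S := {H | ∃ F T, H = fx F T}
  ne := ⟨_, ∅, ∅, rfl⟩
  dir := by
    rintro _ ⟨F, T, rfl⟩ _ ⟨F', T', rfl⟩
    exact ⟨_, ⟨F ∪ F', T ∪ T', rfl⟩, fx_mono Finset.subset_union_left Finset.subset_union_left,
      fx_mono Finset.subset_union_right Finset.subset_union_right⟩
  conj := by
    rintro π _ ⟨F, T, rfl⟩
    refine ⟨_, ⟨F.image (ap π), T, rfl⟩, fun σ h => ⟨fun x hx => ?_, fun t ht => ?_⟩⟩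
    · rw [ap_mul, ap_mul, h.1 _ (Finset.mem_image_of_mem _ hx), ap_inv_ap]
    · change (π.2 t)⁻¹ * σ.2 t * π.2 t = 1
      rw [h.2 t ht, mul_one, inv_mul_cancel]

theorem fx_mem (F : Finset Pt) (T : Finset (ℕ × ℕ)) : fx F T ∈ FS.S := ⟨F, T, rfl⟩

theorem fixes_congr {F : Finset Pt} {T : Finset (ℕ × ℕ)} {w : Nm Cn} (h : Fixes (fx F T) w)
    {γ δ : Gp} (h1 : ∀ x ∈ F, ap γ x = ap δ x) (h2 : ∀ t ∈ T, γ.2 t = δ.2 t) (p : Cn) :
    feq (act γ w) (act δ w) p :=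
  h.congr ⟨fun x hx => by rw [ap_mul, h1 x hx, ap_inv_ap], fun t ht => by
    change (δ.2 t)⁻¹ * γ.2 t = 1
    rw [h2 t ht, inv_mul_cancel]⟩ p

/-- Transpositions. -/
def sw (a : Pt) (c : ℕ) : Gp := (fun s => if s = a.1 then Equiv.swap a.2 c else 1, 1)

theorem sw_left (a : Pt) (c : ℕ) : ap (sw a c) a = (a.1, c) := by simp [ap, sw]

theorem sw_right (a : Pt) (c : ℕ) : ap (sw a c) (a.1, c) = a := by simp [ap, sw]

theorem sw_of_ne {a x : Pt} {c : ℕ} (h : x ≠ a) (h' : x ≠ (a.1, c)) : ap (sw a c) x = x := by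
  by_cases h1 : x.1 = a.1
  · have h2 : x.2 ≠ a.2 := fun h2 => h (Prod.ext h1 h2)
    have h3 : x.2 ≠ c := fun h3 => h' (Prod.ext h1 h3)
    simp [ap, sw, h1, Equiv.swap_apply_of_ne_of_ne h2 h3]
    exact Prod.ext h1.symm rfl
  · simp [ap, sw, h1]

theorem sw_mem {a : Pt} {c : ℕ} {F : Finset Pt} (h : a ∉ F) (h' : (a.1, c) ∉ F)
    (T : Finset (ℕ × ℕ)) : sw a c ∈ fx F T :=
  ⟨fun _ hx => sw_of_ne (fun h1 => h (h1 ▸ hx)) (fun h1 => h' (h1 ▸ hx)), fun _ _ => rfl⟩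

theorem ex_fresh (s : Bool) (B : Finset Pt) : ∃ c, (s, c) ∉ B := by
  obtain ⟨c, hc⟩ := Infinite.exists_notMem_finset (B.image Prod.snd)
  exact ⟨c, fun h => hc (Finset.mem_image_of_mem _ h)⟩

theorem ex_move (F B A : Finset Pt) : ∃ γ : Gp, γ.2 = 1 ∧ (∀ x ∈ F, ap γ x = x) ∧
    ∀ x ∈ A, x ∉ F → ap γ x ∉ B := by
  induction A using Finset.induction_on with
  | empty => exact ⟨1, rfl, fun _ _ => rfl, by simp⟩
  | insert a A ha ih =>
    obtain ⟨γ, h1, h2, h3⟩ := ih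
    by_cases h4 : a ∈ F
    · refine ⟨γ, h1, h2, fun x hx h5 => ?_⟩
      rcases Finset.mem_insert.1 hx with rfl | hx
      · exact absurd h4 h5
      · exact h3 x hx h5
    obtain ⟨c, hc⟩ := ex_fresh (ap γ a).1 (B ∪ F ∪ A.image (ap γ))
    simp only [Finset.mem_union, not_or] at hc
    refine ⟨sw (ap γ a) c * γ, ?_, fun x hx => ?_, fun x hx h5 => ?_⟩
    · change 1 * γ.2 = 1
      rw [h1, one_mul]
    · rw [ap_mul, h2 x hx]
      refine sw_of_ne (fun h5 => h4 ?_) (fun h5 => hc.1.2 (h5 ▸ hx))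
      rw [← h2 x hx] at h5
      exact ap_inj γ h5 ▸ hx
    · rw [ap_mul]
      rcases Finset.mem_insert.1 hx with rfl | hx
      · rw [sw_left]
        exact hc.1.1
      · rw [sw_of_ne (fun h6 => ha ((ap_inj γ h6 : x = a) ▸ hx))
          (fun h6 => hc.2 (h6 ▸ Finset.mem_image_of_mem _ hx))]
        exact h3 x hx h5

theorem res_dn (F : Finset Pt) (T : Finset (ℕ × ℕ)) {Φ : Cn → Prop}
    (h1 : ∀ p q, Φ p → q ≤ p → Φ q) (h2 : ∀ γ ∈ fx F T, ∀ p, Φ p → Φ (γ • p)) {p : Cn}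
    (h : Φ p) : Dn Φ (res F p) := by
  intro q hq
  obtain ⟨γ, h3, h4, h5⟩ := ex_move F q.pts p.pts
  obtain ⟨s, h6, h7, -⟩ := ex_le_sm q p γ fun z hz => by
    by_cases h6 : z.pts ⊆ F
    · left
      rw [sm_fix (fun x hx => h4 x (h6 hx)) fun t _ => by rw [h3]; rfl]
      exact hq z (mem_res.2 ⟨hz, h6⟩)
    · obtain ⟨x, h7, h8⟩ := Finset.not_subset.1 h6
      exact Or.inr ⟨x, h7, h5 x (mem_pts hz h7) h8⟩
  exact ⟨s, h6, h1 _ _ (h2 γ ⟨h4, fun t _ => by rw [h3]; rfl⟩ p h) h7⟩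

end Pool.Agent.H982Z.Nas
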