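import Pool.Agent.H982Z.Nas.Top

/-!
# Every compactification has finite remainder
-/

set_option autoImplicit false

namespace Pool.Agent.H982Z.Nas

open Pool.Agent.H164Z.Bspt Pool.Agent.H982Z.Scat Pool.Agent.H982Z.Sym

variable {N : Type} {S : Str N} {d x : ℕ → N} {C : Finset ℕ → (ℕ → Prop) → N}
  {K τ D' h : N}

namespace Iface

variable (I : Iface S d x C)
include I

theorem dec' (A : N) : ∃ (F : Finset ℕ) (W : Set N), W.Finite ∧ ∀ F' s, F ⊆ F' →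
    (∀ z, S.E z (C F' s) → z ∉ W → S.E z A) ∨ ∀ z, S.E z (C F' s) → z ∉ W → ¬ S.E z A := by
  obtain ⟨F, W, h1⟩ := I.dec A
  refine ⟨F, d '' W, W.finite_toSet.image d, fun F' s hF => ?_⟩
  by_contra h2
  simp only [not_or, not_forall, not_not] at h2
  obtain ⟨⟨z, h2, h3, h4⟩, z', h5, h6, h7⟩ := h2
  obtain ⟨k, rfl, h8⟩ := (I.memC _ _ _).1 h2
  obtain ⟨k', rfl, h9⟩ := (I.memC _ _ _).1 h5
  exact h4 (h1 k' k (fun h => h6 ⟨k', h, rfl⟩) (fun h => h3 ⟨k, h, rfl⟩)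
    (fun y hy => (h9 y (hF hy)).trans (h8 y (hF hy)).symm) h7)

theorem C_mono {F F' : Finset ℕ} {s s' : ℕ → Prop} (h1 : F ⊆ F') (h2 : ∀ y ∈ F, s' y ↔ s y)
    {z : N} (hz : S.E z (C F' s')) : S.E z (C F s) := by
  obtain ⟨k, rfl, h3⟩ := (I.memC _ _ _).1 hz
  exact (I.memC _ _ _).2 ⟨k, rfl, fun y hy => (h3 y (h1 hy)).trans (h2 y hy)⟩

variable (c : Ctx S (C ∅ fun _ => True) K τ D' h)
include c

theorem flip : ∃ E₀ : Finset ℕ, ∀ F s a, a ∉ E₀ → a ∉ F →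
    Near S K τ D' h (fun z => S.E z (C F s) ∧ S.E (x a) z)
      (fun z => S.E z (C F s) ∧ ¬ S.E (x a) z) := by
  classical
  obtain ⟨E₀, hE⟩ := I.key (fun u y => ¬ Near S K τ D' h (fun z => S.E z u ∧ S.E y z)
    (fun z => S.E z u ∧ ¬ S.E y z)) (D2.of _)
  refine ⟨E₀, fun F s a h1 h2 => ?_⟩
  by_contra h3
  obtain ⟨Op, col, h4, h5⟩ := hE F s a h1 h2 h3
  obtain ⟨Ft, -, hF⟩ := ex_fin S (F.finite_toSet.image x)
  have h6 : ∃ r, S.E r K ∧ ¬ S.E r D' ∧ ∀ y y', (∃ u, S.E u Op ∧ S.E y u ∧ S.E y' u) → y ≠ y' →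
      ¬ S.E y Ft → ¬ S.E y' Ft →
      Cl S τ h (fun z => S.E z (C F s) ∧ ¬ (S.E y z ↔ S.E y' z)) r := by
    by_contra h6
    obtain ⟨B, h7, h8, h9⟩ := c.cover (fun W => (∃ x₀, ∀ t, S.E t W → t = x₀) ∨
      ∃ y y', (∃ u, S.E u Op ∧ S.E y u ∧ S.E y' u) ∧ ¬ y = y' ∧ ¬ S.E y Ft ∧ ¬ S.E y' Ft ∧
        ¬ ∃ z w, (S.E z (C F s) ∧ ¬ (S.E y z ↔ S.E y' z)) ∧ Rel S.E h z w ∧ S.E w W)
      fun r hr => by
        by_cases h7 : S.E r D'
        · obtain ⟨U, h8, h9⟩ := c.iso h7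
          exact ⟨U, h8, (h9 r).2 rfl, Or.inl ⟨r, fun t => (h9 t).1⟩⟩
        · by_contra h8
          refine h6 ⟨r, hr, h7, fun y y' g1 g2 g3 g4 U g5 g6 => ?_⟩
          by_contra g7
          exact h8 ⟨U, g5, g6, Or.inr ⟨y, y', g1, g2, g3, g4, g7⟩⟩
    have h10 : ∀ W, ∃ (x₀ : N) (b b' : ℕ), S.E W B → (∀ t, S.E t W → t = x₀) ∨
        (b ∉ F ∧ b' ∉ F ∧ ¬ (col b ↔ col b') ∧ ¬ ∃ z w, (S.E z (C F s) ∧
          ¬ (S.E (x b) z ↔ S.E (x b') z)) ∧ Rel S.E h z w ∧ S.E w W) := fun W => by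
      by_cases hW : S.E W B
      · rcases (h8 W hW).2 with ⟨x₀, g⟩ | ⟨y, y', ⟨u, g1, g2, g3⟩, g4, g5, g6, g7⟩
        · exact ⟨x₀, 0, 0, fun _ => Or.inl g⟩
        · obtain ⟨b, b', rfl, rfl, g8⟩ := h4 u y y' g1 g2 g3 g4
          exact ⟨W, b, b', fun _ => Or.inr ⟨fun g => g5 ((hF _).2 ⟨b, g, rfl⟩),
            fun g => g6 ((hF _).2 ⟨b', g, rfl⟩), g8, g7⟩⟩
      · exact ⟨W, 0, 0, fun g => absurd g hW⟩
    choose x₀ b b' h10 using h10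
    have h11 : (⋃ W ∈ {U | S.E U B}, {z | Rel S.E h z (x₀ W)}).Finite :=
      h7.biUnion fun W _ => Set.Subsingleton.finite fun z hz z' hz' =>
        (c.bij.2.2 _ (S.bij_rel c.bij hz).2).unique hz hz'
    obtain ⟨z, g1, g2⟩ := (I.pat (F ∪ h7.toFinset.image b ∪ h7.toFinset.image b')
      (fun y => (y ∈ F ∧ s y) ∨ (y ∉ F ∧ col y))).exists_notMem_finite h11
    obtain ⟨w, g3, -⟩ := c.bij.2.1 z (I.C_mono (Finset.empty_subset _) (by simp) g1)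
    obtain ⟨W, g4, g5⟩ := h9 w (c.sub w (S.bij_rel c.bij g3).2)
    rcases h10 W g4 with g6 | ⟨g6, g7, g8, g9⟩
    · exact g2 (Set.mem_biUnion (show W ∈ {U | S.E U B} from g4) (show Rel S.E h z (x₀ W) from
        g6 w g5 ▸ g3))
    · refine g9 ⟨z, w, ⟨I.C_mono (Finset.subset_union_left.trans Finset.subset_union_left)
        (fun y hy => by simp [hy]) g1, ?_⟩, g3, g5⟩
      obtain ⟨k, rfl, g10⟩ := (I.memC _ _ _).1 g1
      rw [g10 _ (Finset.mem_union_left _ (Finset.mem_union_right _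
        (Finset.mem_image_of_mem _ (h7.mem_toFinset.2 g4)))), g10 _ (Finset.mem_union_right _
        (Finset.mem_image_of_mem _ (h7.mem_toFinset.2 g4)))]
      simpa [g6, g7] using g8
  obtain ⟨r, h7, h8, h9⟩ := h6
  obtain ⟨Y, hY⟩ := S.zf.union Op
  obtain ⟨A, hA⟩ := S.sep (fun y => Cl S τ h (fun z => S.E z (C F s) ∧ S.E y z) r) Y
  obtain ⟨u, b, b', g1, g2, g3, g4, g5, g6, g7, g8⟩ := h5 A
  rw [hA, hA] at g8
  have g9 := h9 _ _ ⟨u, g1, g2, g3⟩ g4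
    (fun g => by obtain ⟨y, g', g''⟩ := (hF _).1 g; exact (g5 y g').1 g''.symm)
    (fun g => by obtain ⟨y, g', g''⟩ := (hF _).1 g; exact (g5 y g').2 g''.symm)
  rcases c.cl_or (Q := fun z => S.E z (C F s) ∧ S.E (x b) z ∧ ¬ S.E (x b') z)
    (Q' := fun z => S.E z (C F s) ∧ S.E (x b') z ∧ ¬ S.E (x b) z)
    (c.cl_mono g9 fun z _ g => by tauto) with g10 | g10
  · exact g7 ⟨r, h7, h8, (g8.1 ⟨(hY _).2 ⟨u, g1, g2⟩,
      c.cl_mono g10 fun z _ g => ⟨g.1, g.2.1⟩⟩).2, c.cl_mono g10 fun z _ g => ⟨g.1, g.2.2⟩⟩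
  · exact g6 ⟨r, h7, h8, (g8.2 ⟨(hY _).2 ⟨u, g1, g3⟩,
      c.cl_mono g10 fun z _ g => ⟨g.1, g.2.1⟩⟩).2, c.cl_mono g10 fun z _ g => ⟨g.1, g.2.2⟩⟩

theorem near_trans {s t u : ℕ → Prop}
    (h1 : ∀ F, Near S K τ D' h (fun z => S.E z (C F s)) (fun z => S.E z (C F t)))
    (h2 : ∀ F, Near S K τ D' h (fun z => S.E z (C F t)) (fun z => S.E z (C F u))) (F : Finset ℕ) :
    Near S K τ D' h (fun z => S.E z (C F s)) (fun z => S.E z (C F u)) := by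
  by_contra h3
  obtain ⟨A, h4, h5⟩ := c.separate h3
  obtain ⟨F', W, h6, h7⟩ := I.dec' A
  rcases h7 (F' ∪ F) t Finset.subset_union_left with h8 | h8
  · obtain ⟨r, g1, g2, g3, g4⟩ := h2 (F' ∪ F)
    exact h4 ⟨r, g1, g2, c.cl_mono (c.cl_fin g1 g2 g3 h6) fun z _ g => h8 z g.1 g.2,
      c.cl_mono g4 fun z _ => I.C_mono Finset.subset_union_right fun _ _ => Iff.rfl⟩
  · obtain ⟨r, g1, g2, g3, g4⟩ := h1 (F' ∪ F)
    exact h5 ⟨r, g1, g2,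
      c.cl_mono g3 fun z _ => I.C_mono Finset.subset_union_right fun _ _ => Iff.rfl,
      c.cl_mono (c.cl_fin g1 g2 g4 h6) fun z _ g => h8 z g.1 g.2⟩

theorem near_all : ∃ E₀ : Finset ℕ, ∀ s t, (∀ y ∈ E₀, s y ↔ t y) → ∀ F,
    Near S K τ D' h (fun z => S.E z (C F s)) (fun z => S.E z (C F t)) := by
  classical
  obtain ⟨E₀, hE⟩ := I.flip c
  have h1 : ∀ a s t, a ∉ E₀ → (∀ y, y ≠ a → (s y ↔ t y)) → ∀ F,
      Near S K τ D' h (fun z => S.E z (C F s)) (fun z => S.E z (C F t)) := by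
    intro a s t ha h1 F
    obtain ⟨r, g1, g2, g3, g4⟩ := hE (F.erase a) s a ha (Finset.notMem_erase a F)
    have h2 : ∀ t : ℕ → Prop, (∀ y, y ≠ a → (s y ↔ t y)) →
        Cl S τ h (fun z => S.E z (C F t)) r := fun t h2 => by
      have h3 : ∀ z, S.E z (C (F.erase a) s) → (S.E (x a) z ↔ t a) → S.E z (C F t) := by
        intro z h3 h4
        obtain ⟨k, rfl, h5⟩ := (I.memC _ _ _).1 h3
        refine (I.memC _ _ _).2 ⟨k, rfl, fun y hy => ?_⟩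
        by_cases h6 : y = a
        · exact h6 ▸ h4
        · exact (h5 y (Finset.mem_erase.2 ⟨h6, hy⟩)).trans (h2 y h6)
      by_cases h4 : t a
      · exact c.cl_mono g3 fun z _ g => h3 z g.1 (iff_of_true g.2 h4)
      · exact c.cl_mono g4 fun z _ g => h3 z g.1 (iff_of_false g.2 h4)
    exact ⟨r, g1, g2, h2 s fun _ _ => Iff.rfl, h2 t h1⟩
  have h2 : ∀ (A : Finset ℕ) s t, (∀ y ∈ E₀, s y ↔ t y) → (∀ y, y ∉ A → (s y ↔ t y)) → ∀ F,
      Near S K τ D' h (fun z => S.E z (C F s)) (fun z => S.E z (C F t)) := by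
    intro A
    induction A using Finset.induction_on with
    | empty =>
      intro s t _ h2
      obtain ⟨a, ha⟩ := Infinite.exists_notMem_finset E₀
      exact h1 a s t ha fun y _ => h2 y (Finset.notMem_empty y)
    | insert a A _ ih =>
      intro s t h2 h3
      by_cases h4 : a ∈ E₀
      · refine ih s t h2 fun y hy => ?_
        by_cases h5 : y = a
        · exact h2 y (h5 ▸ h4)
        · exact h3 y fun h6 => (Finset.mem_insert.1 h6).elim h5 hy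
      · refine I.near_trans c (h1 a s (fun y => (y = a ∧ t y) ∨ (y ≠ a ∧ s y)) h4
          fun y hy => by simp [hy]) (ih _ t (fun y hy => ?_) fun y hy => ?_)
        · have h5 : y ≠ a := fun h => h4 (h ▸ hy)
          simpa [h5] using h2 y hy
        · by_cases h5 : y = a
          · simp [h5]
          · simpa [h5] using h3 y fun h6 => (Finset.mem_insert.1 h6).elim h5 hy
  refine ⟨E₀, fun s t h3 F => ?_⟩
  obtain ⟨r, g1, g2, g3, g4⟩ := h2 F s (fun y => (y ∈ F ∧ t y) ∨ (y ∉ F ∧ s y))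
    (fun y hy => by
      by_cases h4 : y ∈ F
      · simpa [h4] using h3 y hy
      · simp [h4]) (fun y hy => by simp [hy]) F
  exact ⟨r, g1, g2, g3, c.cl_mono g4 fun z _ => I.C_mono le_rfl fun y hy => by simp [hy]⟩

theorem cl_pat {Q : N → Prop} {r : N} (h1 : Cl S τ h Q r) (F : Finset ℕ) :
    ∃ s, Cl S τ h (fun z => Q z ∧ S.E z (C F s)) r := by
  classical
  induction F using Finset.induction_on with
  | empty => exact ⟨_, c.cl_mono h1 fun z hz g => ⟨g, hz⟩⟩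
  | insert a F ha ih =>
    obtain ⟨s, h2⟩ := ih
    have h3 : ∀ (e : Prop) z, S.E z (C F s) → (S.E (x a) z ↔ e) →
        S.E z (C (insert a F) fun y => (y = a ∧ e) ∨ (y ≠ a ∧ s y)) := by
      intro e z h3 h4
      obtain ⟨k, rfl, h5⟩ := (I.memC _ _ _).1 h3
      refine (I.memC _ _ _).2 ⟨k, rfl, fun y hy => ?_⟩
      rcases Finset.mem_insert.1 hy with rfl | hy
      · simpa using h4
      · have h6 : y ≠ a := fun h => ha (h ▸ hy)
        simpa [h6] using h5 y hy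
    rcases c.cl_or (Q := fun z => (Q z ∧ S.E z (C F s)) ∧ S.E (x a) z)
      (Q' := fun z => (Q z ∧ S.E z (C F s)) ∧ ¬ S.E (x a) z)
      (c.cl_mono h2 fun z _ g => by tauto) with h4 | h4
    · exact ⟨_, c.cl_mono h4 fun z _ g => ⟨g.1.1, h3 True z g.1.2 (iff_true_intro g.2)⟩⟩
    · exact ⟨_, c.cl_mono h4 fun z _ g => ⟨g.1.1, h3 False z g.1.2 (iff_false_intro g.2)⟩⟩

theorem rem_finite : {r | S.E r K ∧ ¬ S.E r D'}.Finite := by
  classical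
  obtain ⟨E₀, hE⟩ := I.near_all c
  refine (E₀.powerset.finite_toSet.biUnion (t := fun A => {r | S.E r K ∧ ¬ S.E r D' ∧
    Cl S τ h (fun z => S.E z (C E₀ fun y => y ∈ A)) r}) fun A _ =>
    Set.Subsingleton.finite ?_).subset fun r hr => ?_
  · rintro r ⟨h1, h2, h3⟩ r' ⟨h4, h5, h6⟩
    by_contra h7
    obtain ⟨U₁, V, g1, g2, g3, g4, g5⟩ := c.haus r r' h1 h4 h7
    obtain ⟨g, hg⟩ := c.ex_fun
    obtain ⟨b, hb⟩ := S.sep (fun z => ∃ w, Rel S.E h z w ∧ S.E w V) (C ∅ fun _ => True)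
    obtain ⟨U, g6, g7, g8⟩ := c.regular (a := b) h1 fun g6 => by
      obtain ⟨z, w, g7, g8, g9⟩ := g6 U₁ g1 g3
      obtain ⟨-, w', g10, g11⟩ := (hb z).1 g7
      exact g5 w ⟨g9, by rwa [hg z w g8, ← hg z w' g10]⟩
    obtain ⟨a, ha⟩ := S.sep (fun z => ∃ w, Rel S.E h z w ∧ S.E w U) (C ∅ fun _ => True)
    obtain ⟨F₁, W₁, f1, f2⟩ := I.dec' a
    obtain ⟨F₂, W₂, f3, f4⟩ := I.dec' b
    obtain ⟨s, hs⟩ := I.cl_pat c h3 (F₁ ∪ F₂ ∪ E₀)
    obtain ⟨t, ht⟩ := I.cl_pat c h6 (F₁ ∪ F₂ ∪ E₀)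
    have f5 : ∀ (s : ℕ → Prop) (r : N), S.E r K → Cl S τ h (fun z =>
        S.E z (C E₀ fun y => y ∈ A) ∧ S.E z (C (F₁ ∪ F₂ ∪ E₀) s)) r → ∀ y ∈ E₀, s y ↔ y ∈ A := by
      intro s r f5 f6 y hy
      obtain ⟨z, w, ⟨f7, f8⟩, -⟩ := f6 K c.top.univ f5
      obtain ⟨k, rfl, f9⟩ := (I.memC _ _ _).1 f7
      obtain ⟨k', f10, f11⟩ := (I.memC _ _ _).1 f8
      rw [← f11 y (Finset.mem_union_right _ hy), ← f10, f9 y hy]
    obtain ⟨q, q1, q2, q3, q4⟩ := hE s t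
      (fun y hy => (f5 s r h1 hs y hy).trans (f5 t r' h4 ht y hy).symm) (F₁ ∪ F₂ ∪ E₀)
    refine g8 q q1 ?_ ?_
    · rcases f4 (F₁ ∪ F₂ ∪ E₀) t (Finset.subset_union_right.trans Finset.subset_union_left)
        with f6 | f6
      · exact c.cl_mono (c.cl_fin q1 q2 q4 f3) fun z _ g => f6 z g.1 g.2
      · obtain ⟨z, w, f7, f8, f9⟩ := c.cl_fin h4 h5 ht f3 V g2 g4
        exact absurd ((hb z).2 ⟨(S.bij_rel c.bij f8).1, w, f8, f9⟩) (f6 z f7.1.2 f7.2)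
    · rcases f2 (F₁ ∪ F₂ ∪ E₀) s (Finset.subset_union_left.trans Finset.subset_union_left)
        with f6 | f6
      · exact c.cl_mono (c.cl_fin q1 q2 q3 f1) fun z _ g => ((ha z).1 (f6 z g.1 g.2)).2
      · obtain ⟨z, w, f7, f8, f9⟩ := c.cl_fin h1 h2 hs f1 U g6 g7
        exact absurd ((ha z).2 ⟨(S.bij_rel c.bij f8).1, w, f8, f9⟩) (f6 z f7.1.2 f7.2)
  · obtain ⟨s, hs⟩ := I.cl_pat c (c.cl_top (r := r)) E₀
    exact Set.mem_biUnion (x := E₀.filter s) (Finset.mem_coe.2 (Finset.mem_powerset.2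
      (Finset.filter_subset _ _))) ⟨hr.1, hr.2, c.cl_mono hs fun z _ g =>
        I.C_mono le_rfl (fun y hy => by simp [hy]) g.2⟩

omit c in
theorem not_inshc : ¬ INSHC S.E := fun h1 => by
  obtain ⟨K, τ, ⟨h2, h3, h4, D', h, h5, h6, h7, h8⟩, h9⟩ := h1 (C ∅ fun _ => True)
    fun h2 => I.pat _ _ ((isFin_iff S I.wf _).1 h2)
  have c : Ctx S (C ∅ fun _ => True) K τ D' h := ⟨I.wf, h2, h3, h4, h5, h6, h7, h8⟩
  exact h9 (c.scattered (I.rem_finite c))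

end Iface

end Pool.Agent.H982Z.Nas
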