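import Pool.Agent.H982Z.Nas.Names
import Pool.Agent.H982Z.Nas.Top2

/-!
# The model
-/

set_option autoImplicit false

namespace Pool.Agent.H982Z.Nas

open Pool.Agent.H164Z.Bspt Pool.Agent.H982Z.Sym

/-- Index set of the basic names. -/
abbrev Bs : Type := ℕ ⊕ ℕ ⊕ (Finset ℕ × Finset ℕ) ⊕ (ℕ × ℕ) ⊕ ℕ

/-- The basic names. -/
def nm : Bs → Nm Cn
  | .inl b => xN b
  | .inr (.inl k) => dN k
  | .inr (.inr (.inl t)) => cN t.1 t.2
  | .inr (.inr (.inr (.inl t))) => eN t.1 t.2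
  | .inr (.inr (.inr (.inr i))) => oN i

/-- Index set of the requirements. -/
abbrev Rq : Type :=
  Unit ⊕ Bool ⊕ At ⊕ (Finset ℕ × Finset ℕ × ℕ) ⊕ (Fml × Finset ℕ × Finset ℕ × ℕ)

/-- The requirements. -/
def rq : Rq → List (Nm Cn) → Nm Cn → Cn → Prop
  | .inl _, l, T, q => (∃ l' : List (Nm Cn), ∀ r ≤ q, ∀ z, HS FS z →
      fmem z (l.getD 0 (natN 0)) r → ∃ y ∈ l', ∃ s ≤ r, feq z y s) ∨
      ∀ e, FInf FS (Half (l.getD 0 (natN 0)) T e) q
  | .inr (.inl e), l, x, q => Half (l.getD 0 (natN 0)) (l.getD 1 (natN 0)) e x q ∧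
      ∀ y ∈ l, fne x y q
  | .inr (.inr (.inl z)), _, _, q => ∃ z' ∈ q.1, z'.co = z.co
  | .inr (.inr (.inr (.inl t))), _, _, q =>
      ∃ k, t.2.2 ≤ k ∧ ∀ y ∈ t.1, At.d k y (decide (y ∈ t.2.1)) ∈ q.1
  | .inr (.inr (.inr (.inr t))), l, _, q =>
      Key t.1 t.2.1 t.2.2.1 t.2.2.2 (l.getD 0 (natN 0)) (fun i => l.getD (i + 1) (natN 0)) q

section model

variable {b : ℕ → Nm Cn} {M : Mod FS b}

theorem split_model (hM : M.Meets rq) (Z : M.N) (hZ : {x | M.E x Z}.Infinite) :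
    ∃ T, {x | M.E x Z ∧ M.E x T}.Infinite ∧ {x | M.E x Z ∧ ¬ M.E x T}.Infinite := by
  obtain ⟨k, rfl⟩ := M.cl_surj Z
  obtain ⟨p, hp⟩ := M.ne
  obtain ⟨q, hq, m, h1 | h1⟩ := hM (.inl ()) [k] p hp fun r _ => by
    by_cases h1 : FInf FS (fun z q => fmem z (M.e k) q) r
    · obtain ⟨q, h2, T, h3, h4⟩ := split (M.hs k) h1
      exact ⟨q, h2, T, h3, Or.inr h4⟩
    · obtain ⟨l, h1⟩ := not_forall.1 h1
      obtain ⟨s, h1⟩ := not_forall.1 h1
      obtain ⟨hs, h1⟩ := Classical.not_imp.1 h1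
      refine ⟨s, hs, M.e k, M.hs k, Or.inl ⟨l, fun u hu z h2 h3 => ?_⟩⟩
      by_contra h4
      exact h1 ⟨u, hu, z, h2, h3, fun y hy t ht h5 => h4 ⟨y, hy, t, ht, h5⟩⟩
  · obtain ⟨l, h1⟩ := h1
    exact absurd (Mod.finite_of hq l h1) hZ
  have h2 : ∀ e (s : Set M.N), (∀ n r, r ∈ M.G → Half (M.e k) (M.e m) e (M.e n) r → M.cl n ∈ s) →
      s.Infinite := fun e s hs h2 => by
    choose f hf using M.cl_surj
    obtain ⟨r, hr, n, h3, h4⟩ := hM (.inr (.inl e)) (k :: m :: h2.toFinset.toList.map f) q hq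
      (h1 e _)
    refine Mod.not_GE hr (h4 (M.e (f (M.cl n))) ?_) (M.cl_eq.1 (hf _).symm)
    refine List.mem_map_of_mem (List.mem_cons_of_mem _ (List.mem_cons_of_mem _
      (List.mem_map_of_mem ?_)))
    exact Finset.mem_toList.2 (h2.mem_toFinset.2 (hs n r hr h3))
  exact ⟨M.cl m, h2 true _ fun n r hr h => ⟨⟨r, hr, h.1⟩, ⟨r, hr, h.2⟩⟩,
    h2 false _ fun n r hr h => ⟨⟨r, hr, h.1⟩, Mod.not_GM hr h.2⟩⟩

theorem nas_model (hM : M.Meets rq) : NAS M.E := by
  rintro X ⟨h1, h2⟩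
  have h0 := isFin_iff M.str M.wf
  obtain ⟨T, h3, h4⟩ := split_model hM X fun h => h1 ((h0 X).2 h)
  obtain ⟨Y, hY⟩ := M.str.sep (fun t => M.str.E t T) X
  obtain ⟨W, hW⟩ := M.str.sep (fun t => ¬ M.str.E t Y) X
  refine h4 (((h0 W).1 (h2 Y W (fun t ht => ((hY t).1 ht).1)
    (fun h => h3 (((h0 Y).1 h).subset fun t ht => (hY t).2 ht)) hW)).subset fun t ht => ?_)
  exact (hW t).2 ⟨ht.1, fun h => ht.2 ((hY t).1 h).2⟩

theorem mem_G {q : Cn} (h : ∀ z ∈ q.1, ∃ p ∈ M.G, z ∈ p.1) : q ∈ M.G := by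
  obtain ⟨p, hp, h1⟩ := M.finite_and q.1 (fun z p => z ∈ p.1) (fun _ _ _ h h' => h' _ h) h
  exact M.up p hp q h1

theorem G_eq {p q : Cn} (hp : p ∈ M.G) (hq : q ∈ M.G) {z z' : At} (h : z ∈ p.1) (h' : z' ∈ q.1)
    (h1 : z.co = z'.co) : z = z' := by
  obtain ⟨r, -, h2, h3⟩ := M.dir p hp q hq
  exact r.2 _ (h2 _ h) _ (h3 _ h') h1

theorem co_d {z : At} {k y : ℕ} {e : Bool} (h : z.co = (At.d k y e).co) :
    ∃ e', z = At.d k y e' := by
  cases z <;> simp only [At.co, Sum.inr.injEq, Prod.mk.injEq, reduceCtorEq] at h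
  exact ⟨_, by rw [h.1, h.2]⟩

theorem iface (hM : M.Meets rq) (val : Bs → M.N) (h2 : ∀ z, M.Den (nm z) (val z))
    (h3 : ∀ z x, M.E x (val z) → ∃ j, M.Den ((nm z).A j) x ∧ ∃ p ∈ M.G, p ∈ (nm z).c j) :
    ∃ d x C, Iface M.str d x C := by
  classical
  obtain ⟨p₀, hp₀⟩ := M.ne
  let x : ℕ → M.N := fun b => val (.inl b)
  let d : ℕ → M.N := fun k => val (.inr (.inl k))
  let C : Finset ℕ → (ℕ → Prop) → M.N := fun F s => val (.inr (.inr (.inl (F, F.filter s))))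
  have hx : ∀ b, M.Den (xN b) (x b) := fun b => h2 (.inl b)
  have hd : ∀ k, M.Den (dN k) (d k) := fun k => h2 (.inr (.inl k))
  have hC : ∀ F s, M.Den (cN F (F.filter s)) (C F s) := fun F s =>
    h2 (.inr (.inr (.inl (F, F.filter s))))
  have xinj : ∀ {a b}, x a = x b → a = b := fun {a b} h => by
    obtain ⟨p, -, h1⟩ := ((hx a).eq_iff (hx b)).1 h
    exact not_not.1 fun h4 => xN_ne h4 p h1
  have dinj : Function.Injective d := fun a b h => by
    obtain ⟨p, -, h1⟩ := ((hd a).eq_iff (hd b)).1 h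
    exact not_not.1 fun h4 => dN_ne h4 p h1
  have gval : ∀ q ∈ M.G, ∀ k y e, At.d k y e ∈ q.1 → (M.E (x y) (d k) ↔ e = true) := by
    intro q hq k y e h
    constructor
    · intro h1
      obtain ⟨j, h4, p, hp, h5⟩ := h3 (.inr (.inl k)) _ h1
      obtain rfl : y = j := xinj ((h4.eq_iff (hx j)).2 (Mod.GE.refl _))
      cases G_eq hq hp h h5 rfl
      rfl
    · rintro rfl
      exact ((hx y).mem_iff (hd k)).2 ⟨q, hq, fmem_child (dN k) y h⟩
  have tot : ∀ k y, ∃ q ∈ M.G, ∃ e, At.d k y e ∈ q.1 := fun k y => by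
    obtain ⟨q, hq, -, z, h4, h5⟩ := hM (.inr (.inr (.inl (.d k y true)))) [] p₀ hp₀
      fun r _ => by
        obtain ⟨q, h4, h5⟩ := ex_val r (.d k y true)
        exact ⟨q, h4, _, hs_x 0, h5⟩
    obtain ⟨e, rfl⟩ := co_d h5
    exact ⟨q, hq, e, h4⟩
  have memC : ∀ F s z, M.E z (C F s) ↔ ∃ k, z = d k ∧ ∀ y ∈ F, (M.E (x y) (d k) ↔ s y) := by
    intro F s z
    constructor
    · intro h
      obtain ⟨k, h4, p, hp, h5⟩ := h3 (.inr (.inr (.inl (F, F.filter s)))) _ h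
      refine ⟨k, (h4.eq_iff (hd k)).2 (Mod.GE.refl _), fun y hy => ?_⟩
      rw [gval p hp k y _ (h5 y hy)]
      simp [hy]
    · rintro ⟨k, rfl, h⟩
      obtain ⟨p, hp, h4⟩ := M.finite_and F
        (fun y p => At.d k y (decide (y ∈ F.filter s)) ∈ p.1) (fun _ _ _ h h' => h' _ h)
        fun y hy => by
          obtain ⟨q, hq, e, h4⟩ := tot k y
          have h5 : decide (y ∈ F.filter s) = e := by
            have := (gval q hq k y e h4).symm.trans (h y hy)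
            cases e <;> simpa [hy] using this
          exact ⟨q, hq, h5 ▸ h4⟩
      exact ((hd k).mem_iff (hC F s)).2 ⟨p, hp, fmem_child (cN F (F.filter s)) k h4⟩
  refine ⟨d, x, C, M.wf, memC, fun A => ?_, fun F s => ?_, fun R hR => ?_⟩
  · obtain ⟨m, rfl⟩ := M.cl_surj A
    obtain ⟨_, ⟨E, T, rfl⟩, hE⟩ := (M.hs m).symm
    refine ⟨E.image Prod.snd, E.image Prod.snd, fun k k' hk hk' h h1 => ?_⟩
    obtain ⟨p, hp, h4⟩ := ((hd k).mem_iff (Mod.Den.cl m)).1 h1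
    have h5 := fmem_of_dn (res_dn (insert (true, k) E) T (fun _ _ => fmem.mono)
      (fun δ hδ p h => ((h.act δ).left (by
        have := act_d δ k (δ • p)
        rwa [ap_snd (hδ.1 _ (Finset.mem_insert_self _ _))] at this)).right
        (hE δ (fx_mono (Finset.subset_insert _ _) le_rfl hδ) _)) h4)
    have h6 := sw_mem (a := (true, k)) (c := k') (F := E)
      (fun h => hk (Finset.mem_image_of_mem _ h)) (fun h => hk' (Finset.mem_image_of_mem _ h)) T
    have h7 : (sw (true, k) k').1 true k = k' := congrArg Prod.snd (sw_left (true, k) k')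
    refine ((hd k').mem_iff (Mod.Den.cl m)).2 ⟨_, mem_G fun z hz => ?_,
      ((h5.act (sw (true, k) k')).left (h7 ▸ act_d _ k _ :)).right (hE _ h6 _)⟩
    obtain ⟨u, rfl⟩ : ∃ u, z = sw (true, k) k' • u := ⟨_, (smul_inv_smul _ z).symm⟩
    obtain ⟨h8, h9⟩ := mem_res.1 (sm_mem_sm.1 hz)
    by_cases h10 : (true, k) ∈ u.pts
    · cases u with
      | y i y j e => simp [At.pts] at h10
      | d k₁ y e =>
        obtain rfl : k = k₁ := by simpa [At.pts] using h10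
        have h11 : (false, y) ∈ E := by simpa using h9 (show (false, y) ∈ _ by simp [At.pts])
        obtain ⟨q, hq, e', h12⟩ := tot k' y
        have h13 := ((gval p hp k y e h8).symm.trans
          (h y (Finset.mem_image_of_mem _ h11))).trans (gval q hq k' y e' h12)
        rw [sm_d, h7, ap_snd (h6.1 _ h11), Bool.eq_iff_iff.2 h13]
        exact ⟨q, hq, h12⟩
    · rw [sm_fix (fun y hy => h6.1 y ?_) (fun _ _ => rfl)]
      · exact ⟨p, hp, h8⟩
      · exact (Finset.mem_insert.1 (h9 hy)).resolve_left fun h3 => h10 (h3 ▸ hy)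
  · refine (Set.Infinite.image dinj.injOn (s := {k | M.E (d k) (C F s)})
      (Set.infinite_of_forall_exists_gt fun n => ?_)).mono ?_
    · obtain ⟨q, hq, -, k, h4, h5⟩ := hM (.inr (.inr (.inr (.inl (F, F.filter s, n + 1))))) []
        p₀ hp₀ fun r _ => by
          obtain ⟨q, h4, h5⟩ := ex_pat F (F.filter s) (n + 1) r
          exact ⟨q, h4, _, hs_x 0, h5⟩
      exact ⟨k, ((hd k).mem_iff (hC F s)).2 ⟨q, hq, fmem_child (cN F (F.filter s)) k h5⟩, h4⟩
    · rintro _ ⟨k, hk, rfl⟩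
      exact hk
  · obtain ⟨φ, hφ⟩ := Mod.force_D2 R hR
    obtain ⟨_, ⟨E₀, T₀, rfl⟩, hE⟩ := exists_fixes (n := bd φ) M.hs
    refine ⟨E₀.image Prod.snd, fun F s a ha haF h => ?_⟩
    obtain ⟨p, hp, h4⟩ := (hφ _ _ _ _ (hC F s) (hx a)).1 h
    have h5 := force_res hE le_rfl h4
    have h6 := M.up p hp _ (le_res (insert (false, a) (E₀ ∪ F.image fun y => (false, y))) p)
    obtain ⟨i, hi⟩ := ex_lev (res (insert (false, a) (E₀ ∪ F.image fun y => (false, y))) p)
    have colv : ∀ q ∈ M.G, ∀ b j e, At.y i b j e ∈ q.1 →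
        ((∃ q ∈ M.G, ∃ j, At.y i b j true ∈ q.1) ↔ e = true) := fun q hq b j e h7 =>
      ⟨fun ⟨r, hr, j', h8⟩ => by cases G_eq hq hr h7 h8 rfl; rfl, fun h8 => ⟨q, hq, j, h8 ▸ h7⟩⟩
    refine ⟨val (.inr (.inr (.inr (.inr i)))), fun b => ∃ q ∈ M.G, ∃ j, At.y i b j true ∈ q.1,
      fun u y y' g1 g2 g3 g4 => ?_, fun A => ?_⟩
    · obtain ⟨t, g5, q, hq, j, e, g6, g7⟩ := h3 (.inr (.inr (.inr (.inr i)))) u g1
      obtain rfl : u = val (.inr (.inr (.inr (.inl t)))) :=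
        (g5.eq_iff (h2 _)).2 (Mod.GE.refl _)
      obtain ⟨c, g8, -⟩ := h3 _ y g2
      obtain ⟨c', g9, -⟩ := h3 _ y' g3
      obtain rfl : y = x (bif c then t.1 else t.2) := (g8.eq_iff (hx _)).2 (Mod.GE.refl _)
      obtain rfl : y' = x (bif c' then t.1 else t.2) := (g9.eq_iff (hx _)).2 (Mod.GE.refl _)
      refine ⟨_, _, rfl, rfl, ?_⟩
      have g10 := colv q hq _ _ _ g6
      have g11 := colv q hq _ _ _ g7
      cases c <;> cases c'
      · exact absurd rfl g4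
      · change ¬ ((∃ q ∈ M.G, ∃ j, At.y i t.2 j true ∈ q.1) ↔ ∃ q ∈ M.G, ∃ j, At.y i t.1 j true ∈ q.1)
        rw [g10, g11]
        cases e <;> simp
      · change ¬ ((∃ q ∈ M.G, ∃ j, At.y i t.1 j true ∈ q.1) ↔ ∃ q ∈ M.G, ∃ j, At.y i t.2 j true ∈ q.1)
        rw [g10, g11]
        cases e <;> simp
      · exact absurd rfl g4
    · obtain ⟨m, rfl⟩ := M.cl_surj A
      have hl : ∀ n < bd φ, ((m :: List.range (bd φ)).map M.e).getD (n + 1) (natN 0) = M.e n :=
        fun n hn => by simp [List.getD_eq_getElem?_getD, hn]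
      have hc : ∀ b q, Force FS φ (cons (cN F (F.filter s)) (cons (xN b) M.e)) q ↔
          Force FS φ (cons (cN F (F.filter s)) (cons (xN b) fun n =>
            ((m :: List.range (bd φ)).map M.e).getD (n + 1) (natN 0))) q := fun b q => by
        constructor <;> refine force_congr fun n hn => ?_
        · match n with
          | 0 => exact feq.refl _ _
          | 1 => exact feq.refl _ _
          | n + 2 =>
            change feq (M.e n) (((m :: List.range (bd φ)).map M.e).getD (n + 1) (natN 0)) q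
            rw [hl n (by omega)]
            exact feq.refl _ _
        · match n with
          | 0 => exact feq.refl _ _
          | 1 => exact feq.refl _ _
          | n + 2 =>
            change feq (((m :: List.range (bd φ)).map M.e).getD (n + 1) (natN 0)) (M.e n) q
            rw [hl n (by omega)]
            exact feq.refl _ _
      obtain ⟨q, hq, -, b, b', j, g1, g2, g3, g4, g5, g6, g7⟩ :=
        hM (.inr (.inr (.inr (.inr (φ, F, F.filter s, i))))) (m :: List.range (bd φ)) _ h6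
          ((key_dense (E₀ := E₀) (T₀ := T₀) (fun n hn => (hl n hn).symm ▸ hE n hn)
            (fun h7 => (Finset.mem_union.1 h7).elim
              (fun h8 => ha (Finset.mem_image_of_mem _ h8)) fun h8 => haF (by simpa using h8))
            ((hc _ _).1 h5) (fun z hz => (mem_res.1 hz).2) hi (M.hs m)).imp'
            fun r _ h7 => ⟨_, hs_x 0, h7⟩)
      have g8 := h2 (.inr (.inr (.inr (.inl (b, b')))))
      refine ⟨val (.inr (.inr (.inr (.inl (b, b'))))), b, b',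
        (g8.mem_iff (h2 _)).2 ⟨q, hq, fmem_child (oN i) (b, b') ⟨j, false, g3, g4⟩⟩,
        ((hx b).mem_iff g8).2 ⟨q, hq, fmem_child (eN b b') true trivial⟩,
        ((hx b').mem_iff g8).2 ⟨q, hq, fmem_child (eN b b') false trivial⟩, fun g9 => ?_,
        fun y hy => ⟨fun g9 => g1 (xinj g9 ▸ hy), fun g9 => g2 (xinj g9 ▸ hy)⟩,
        (hφ _ _ _ _ (hC F s) (hx b)).2 ⟨q, hq, (hc _ _).2 g5⟩,
        (hφ _ _ _ _ (hC F s) (hx b')).2 ⟨q, hq, (hc _ _).2 g6⟩, ?_⟩
      · obtain rfl := xinj g9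
        cases q.2 _ g3 _ g4 rfl
      · rcases g7 with g7 | g7
        · exact iff_of_true (((hx b).mem_iff (Mod.Den.cl m)).2 ⟨q, hq, g7.1⟩)
            (((hx b').mem_iff (Mod.Den.cl m)).2 ⟨q, hq, g7.2⟩)
        · exact iff_of_false
            (fun g9 => Mod.not_GM hq g7.1 (((hx b).mem_iff (Mod.Den.cl m)).1 g9))
            (fun g9 => Mod.not_GM hq g7.2 (((hx b').mem_iff (Mod.Den.cl m)).1 g9))

end model

theorem main : ∃ (M : Type) (E : M → M → Prop), IsZF E ∧ NAS E ∧ ¬ INSHC E := by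
  obtain ⟨s, hs⟩ := exists_surjective_nat Bs
  obtain ⟨M, hM⟩ := exists_mod' FS (fun n => nm (s n)) (fun n => by
    rcases s n with b | k | t | t | i
    · exact hs_x b
    · exact hs_d k
    · exact hs_c _ _
    · exact hs_e _ _
    · exact hs_o i) top rq
  have h1 : ∀ z, ∃ a, M.Den (nm z) a ∧ ∀ x, M.E x a →
      ∃ j, M.Den ((nm z).A j) x ∧ ∃ p ∈ M.G, p ∈ (nm z).c j := fun z => by
    obtain ⟨n, rfl⟩ := hs z
    exact M.exists_base n
  choose val h2 h3 using h1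
  obtain ⟨d, x, C, I⟩ := iface hM val h2 h3
  exact ⟨M.N, M.E, M.zf, nas_model hM, I.not_inshc⟩

end Pool.Agent.H982Z.Nas
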