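import Pool.Agent.H982Z.Nas.Split

/-!
# The names
-/

set_option autoImplicit false

namespace Pool.Agent.H982Z.Nas

open Pool.Agent.H164Z.Bspt Pool.Agent.H982Z.Sym

theorem feq_reindex {ι κ : Type} {A : ι → Nm Cn} {c : ι → LowerSet Cn} {B : κ → Nm Cn}
    {d : κ → LowerSet Cn} (γ : Gp) (f : ι ≃ κ) (h1 : ∀ i q, q ∈ c i ↔ γ • q ∈ d (f i))
    (h2 : ∀ i p, feq (act γ (A i)) (B (f i)) p) (p : Cn) :
    feq (act γ ⟨ι, A, c⟩) ⟨κ, B, d⟩ p := by
  refine ⟨fun i q _ h => ⟨q, le_rfl, f i, ?_, h2 i q⟩, fun j q _ h => ?_⟩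
  · have := (h1 i _).1 h
    rwa [smul_inv_smul] at this
  · obtain ⟨i, rfl⟩ := f.surjective j
    refine ⟨q, le_rfl, i, (h1 i _).2 ?_, h2 i q⟩
    rwa [smul_inv_smul]

theorem sm_mem_sm {γ : Gp} {q : Cn} {z : At} : γ • z ∈ (γ • q).1 ↔ z ∈ q.1 := by
  rw [mem_sm, inv_smul_smul]

/-- The generic reals. -/
def xN (b : ℕ) : Nm Cn :=
  ⟨ℕ × ℕ, fun t => natN (Nat.pair t.1 t.2),
    fun t => ⟨{q | ∃ e, At.y t.1 b t.2 e ∈ q.1}, fun _ _ h ⟨e, h'⟩ => ⟨e, h _ h'⟩⟩⟩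

/-- The generic sets of reals. -/
def dN (k : ℕ) : Nm Cn :=
  ⟨ℕ, xN, fun b => ⟨{q | At.d k b true ∈ q.1}, fun _ _ h h' => h _ h'⟩⟩

/-- The cylinders. -/
def cN (F A : Finset ℕ) : Nm Cn :=
  ⟨ℕ, dN, fun k => ⟨{q | ∀ y ∈ F, At.d k y (decide (y ∈ A)) ∈ q.1},
    fun _ _ h h' y hy => h _ (h' y hy)⟩⟩

/-- The edges. -/
def eN (b b' : ℕ) : Nm Cn := ⟨Bool, fun t => xN (bif t then b else b'), fun _ => ⊤⟩

/-- The graphs. -/
def oN (i : ℕ) : Nm Cn :=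
  ⟨ℕ × ℕ, fun t => eN t.1 t.2,
    fun t => ⟨{q | ∃ j e, At.y i t.1 j e ∈ q.1 ∧ At.y i t.2 j (!e) ∈ q.1},
      fun _ _ h ⟨j, e, h1, h2⟩ => ⟨j, e, h _ h1, h _ h2⟩⟩⟩

theorem act_x (γ : Gp) (b : ℕ) (p : Cn) : feq (act γ (xN b)) (xN (γ.1 false b)) p := by
  refine feq_reindex γ (Equiv.refl _) (fun t q => ?_) (fun t p => ?_) p
  · refine ⟨fun ⟨e, h⟩ => ⟨_, sm_mem_sm.2 h⟩, fun ⟨e, h⟩ => ⟨(γ.2 t)⁻¹ e, (sm_mem_sm (γ := γ)).1 ?_⟩⟩
    rw [sm_y, p_ai]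
    exact h
  · rw [(chk_natN _).act]
    exact feq.refl _ _

theorem act_d (γ : Gp) (k : ℕ) (p : Cn) : feq (act γ (dN k)) (dN (γ.1 true k)) p :=
  feq_reindex γ (γ.1 false) (fun _ _ => (sm_mem_sm (γ := γ)).symm) (act_x γ) p

theorem act_c (γ : Gp) (F A : Finset ℕ) (h : ∀ y ∈ F, γ.1 false y = y) (p : Cn) :
    feq (act γ (cN F A)) (cN F A) p := by
  refine feq_reindex γ (γ.1 true) (fun k q => ?_) (act_d γ) p
  change (∀ y ∈ F, At.d k y (decide (y ∈ A)) ∈ q.1) ↔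
    ∀ y ∈ F, At.d (γ.1 true k) y (decide (y ∈ A)) ∈ (γ • q).1
  refine forall₂_congr fun y hy => ?_
  rw [← sm_mem_sm (γ := γ), sm_d, h y hy]

theorem act_e (γ : Gp) (b b' : ℕ) (p : Cn) :
    feq (act γ (eN b b')) (eN (γ.1 false b) (γ.1 false b')) p := by
  refine feq_reindex γ (Equiv.refl _) (fun _ _ => ?_) (fun t p => ?_) p
  · exact iff_of_true trivial trivial
  · cases t <;> exact act_x γ _ p

theorem perm_not (φ : Equiv.Perm Bool) (e : Bool) : φ (!e) = !(φ e) := by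
  have h : φ true ≠ φ false := fun h => by simpa using φ.injective h
  cases e <;> cases h1 : φ true <;> cases h2 : φ false <;> simp_all

theorem act_o (γ : Gp) (i : ℕ) (p : Cn) : feq (act γ (oN i)) (oN i) p := by
  refine feq_reindex γ (Equiv.prodCongr (γ.1 false) (γ.1 false)) (fun t q => ?_)
    (fun t p => act_e γ _ _ p) p
  refine ⟨fun ⟨j, e, h1, h2⟩ => ⟨j, γ.2 (i, j) e, sm_mem_sm.2 h1, ?_⟩,
    fun ⟨j, e, h1, h2⟩ => ⟨j, (γ.2 (i, j))⁻¹ e, (sm_mem_sm (γ := γ)).1 ?_,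
      (sm_mem_sm (γ := γ)).1 ?_⟩⟩
  · rw [← perm_not]
    exact sm_mem_sm.2 h2
  · rw [sm_y, p_ai]
    exact h1
  · rw [sm_y, perm_not, p_ai]
    exact h2

theorem ap_snd {γ : Gp} {s : Bool} {b : ℕ} (h : ap γ (s, b) = (s, b)) : γ.1 s b = b :=
  congrArg Prod.snd h

theorem hs_x (b : ℕ) : HS FS (xN b) :=
  ⟨⟨_, fx_mem {(false, b)} ∅, fun γ h p => by
    have := act_x γ b p
    rwa [ap_snd (h.1 _ (Finset.mem_singleton_self _))] at this⟩, fun _ => (chk_natN _).hs _⟩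

theorem hs_d (k : ℕ) : HS FS (dN k) :=
  ⟨⟨_, fx_mem {(true, k)} ∅, fun γ h p => by
    have := act_d γ k p
    rwa [ap_snd (h.1 _ (Finset.mem_singleton_self _))] at this⟩, hs_x⟩

theorem hs_c (F A : Finset ℕ) : HS FS (cN F A) :=
  ⟨⟨_, fx_mem (F.image fun y => (false, y)) ∅, fun γ h p => act_c γ F A
    (fun _ hy => ap_snd (h.1 _ (Finset.mem_image_of_mem _ hy))) p⟩, hs_d⟩

theorem hs_e (b b' : ℕ) : HS FS (eN b b') :=
  ⟨⟨_, fx_mem {(false, b), (false, b')} ∅, fun γ h p => by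
    have := act_e γ b b' p
    rwa [ap_snd (h.1 (false, b) (by simp)), ap_snd (h.1 (false, b') (by simp))] at this⟩,
    fun _ => hs_x _⟩

theorem hs_o (i : ℕ) : HS FS (oN i) :=
  ⟨⟨_, fx_mem ∅ ∅, fun γ _ p => act_o γ i p⟩, fun _ => hs_e _ _⟩

theorem co_y {z : At} {i b j : ℕ} {e : Bool} (h : z.co = (At.y i b j e).co) :
    ∃ j' e', z = At.y i b j' e' := by
  cases z <;> simp only [At.co, Sum.inl.injEq, Prod.mk.injEq, reduceCtorEq] at h
  exact ⟨_, _, by rw [h.1, h.2]⟩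

theorem ex_lev (p : Cn) : ∃ i, ∀ b j e, At.y i b j e ∉ p.1 := by
  obtain ⟨i, hi⟩ := Infinite.exists_notMem_finset (p.tgs.image Prod.fst)
  exact ⟨i, fun b j e h => hi (Finset.mem_image.2 ⟨(i, j), mem_tgs h (by simp [At.tgs]), rfl⟩)⟩

theorem xN_ne {b b' : ℕ} (h : b ≠ b') (p : Cn) : ¬ feq (xN b) (xN b') p := by
  intro h1
  obtain ⟨i, hi⟩ := ex_lev p
  obtain ⟨q, h2, h3, h4⟩ := ex_add p (.y i b 0 false) fun z hz h2 => by
    obtain ⟨j, e, rfl⟩ := co_y h2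
    exact hi _ _ _ hz
  obtain ⟨r, h5, h6, -⟩ := ex_add q (.y i b' 1 false) fun z hz h5 => by
    obtain ⟨j, e, rfl⟩ := co_y h5
    rcases h4 _ hz with h6 | h6
    · exact hi _ _ _ h6
    · exact h (by cases h6; rfl)
  obtain ⟨s, hs, t, ⟨e, h7⟩, h8⟩ := h1.1 (i, 0) r (h5.trans h2) ⟨false, h5 _ h3⟩
  obtain ⟨h9, h10⟩ := Nat.pair_eq_pair.1 (natN_inj h8)
  have h11 := s.2 _ h7 _ (hs _ h6) (by rw [← show i = t.1 from h9]; rfl)
  rw [← show 0 = t.2 from h10] at h11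
  cases h11

theorem dN_ne {k k' : ℕ} (h : k ≠ k') (p : Cn) : ¬ feq (dN k) (dN k') p := by
  intro h1
  obtain ⟨b, hb⟩ := ex_fresh false p.pts
  obtain ⟨q, h2, h3, h4⟩ := ex_add p (.d k b true) fun z hz h2 =>
    hb (mem_pts hz (by rw [pts_co h2]; simp [At.pts]))
  obtain ⟨r, h5, h6, -⟩ := ex_add q (.d k' b false) fun z hz h5 => by
    rcases h4 _ hz with h6 | rfl
    · exact hb (mem_pts h6 (by rw [pts_co h5]; simp [At.pts]))
    · exact h (by cases h5; rfl)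
  obtain ⟨s, hs, b', h7, h8⟩ := h1.1 b r (h5.trans h2) (h5 _ h3)
  obtain rfl : b = b' := not_not.1 fun h9 => xN_ne h9 s h8
  cases s.2 _ h7 _ (hs _ h6) rfl

theorem ex_val (p : Cn) (z : At) : ∃ q ≤ p, ∃ z' ∈ q.1, z'.co = z.co := by
  by_cases h : ∃ z' ∈ p.1, z'.co = z.co
  · exact ⟨p, le_rfl, h⟩
  · obtain ⟨q, h1, h2, -⟩ := ex_add p z fun z' hz h1 => h ⟨z', hz, h1⟩
    exact ⟨q, h1, z, h2, rfl⟩

theorem ex_tot (i : ℕ) (E : Finset ℕ) (p : Cn) :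
    ∃ q ≤ p, ∀ y ∈ E, ∃ j e, At.y i y j e ∈ q.1 := by
  induction E using Finset.induction_on with
  | empty => exact ⟨p, le_rfl, by simp⟩
  | insert a E _ ih =>
    obtain ⟨q, h1, h2⟩ := ih
    obtain ⟨r, h3, z, h4, h5⟩ := ex_val q (.y i a 0 false)
    obtain ⟨j, e, rfl⟩ := co_y h5
    refine ⟨r, h3.trans h1, fun y hy => ?_⟩
    rcases Finset.mem_insert.1 hy with rfl | hy
    · exact ⟨j, e, h4⟩
    · obtain ⟨j', e', h6⟩ := h2 y hy
      exact ⟨j', e', h3 _ h6⟩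

theorem ex_pat (F A : Finset ℕ) (n : ℕ) (p : Cn) :
    ∃ q ≤ p, ∃ k, n ≤ k ∧ ∀ y ∈ F, At.d k y (decide (y ∈ A)) ∈ q.1 := by
  classical
  obtain ⟨k, hk⟩ := ex_fresh true (p.pts ∪ (Finset.range n).image fun k => (true, k))
  simp only [Finset.mem_union, not_or] at hk
  obtain ⟨q, h1, h2, -⟩ := common (p := p) (q := ⟨F.image fun y => At.d k y (decide (y ∈ A)),
    fun z hz z' hz' h => by
      obtain ⟨y, -, rfl⟩ := Finset.mem_image.1 hz
      obtain ⟨y', -, rfl⟩ := Finset.mem_image.1 hz'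
      cases h
      rfl⟩) fun z hz z' hz' h => by
    obtain ⟨y', -, rfl⟩ := Finset.mem_image.1 hz'
    exact absurd (mem_pts hz (by rw [pts_co h]; simp [At.pts])) hk.1
  exact ⟨q, h1, k, not_lt.1 fun h => hk.2 (Finset.mem_image_of_mem _ (Finset.mem_range.2 h)),
    fun y hy => h2 _ (Finset.mem_image_of_mem _ hy)⟩

/-- The key requirement. -/
def Key (φ : Fml) (F A : Finset ℕ) (i : ℕ) (Sn : Nm Cn) (v : ℕ → Nm Cn) (q : Cn) : Prop :=
  ∃ b b' j, b ∉ F ∧ b' ∉ F ∧ At.y i b j false ∈ q.1 ∧ At.y i b' j true ∈ q.1 ∧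
    Force FS φ (cons (cN F A) (cons (xN b) v)) q ∧ Force FS φ (cons (cN F A) (cons (xN b') v)) q ∧
    ((fmem (xN b) Sn q ∧ fmem (xN b') Sn q) ∨ (fnm (xN b) Sn q ∧ fnm (xN b') Sn q))

section key

variable {φ : Fml} {v : ℕ → Nm Cn} {E₀ : Finset Pt} {T₀ : Finset (ℕ × ℕ)} {F A : Finset ℕ}

theorem force_sm (hv : ∀ i < bd φ, Fixes (fx E₀ T₀) (v i)) {γ : Gp}
    (hγ : γ ∈ fx (E₀ ∪ F.image fun y => (false, y)) T₀) {b : ℕ} {q : Cn}
    (h : Force FS φ (cons (cN F A) (cons (xN b) v)) q) :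
    Force FS φ (cons (cN F A) (cons (xN (γ.1 false b)) v)) (γ • q) := by
  refine force_congr (fun i hi => ?_) ((force_act_iff γ φ _ q).2 h)
  match i with
  | 0 => exact act_c γ F A (fun y hy => ap_snd (hγ.1 _ (Finset.mem_union_right _
      (Finset.mem_image_of_mem _ hy)))) _
  | 1 => exact act_x γ b _
  | i + 2 => exact hv i (by omega) γ (fx_mono Finset.subset_union_left le_rfl hγ) _

theorem force_res (hv : ∀ i < bd φ, Fixes (fx E₀ T₀) (v i)) {E : Finset Pt}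
    (hE : E₀ ∪ F.image (fun y => (false, y)) ⊆ E) {b : ℕ} {q : Cn}
    (h : Force FS φ (cons (cN F A) (cons (xN b) v)) q) :
    Force FS φ (cons (cN F A) (cons (xN b) v)) (res (insert (false, b) E) q) :=
  force_of_dn (res_dn _ T₀ (fun _ _ => Force.mono) (fun γ hγ p h1 => by
    have := force_sm hv (fx_mono (hE.trans (Finset.subset_insert _ _)) le_rfl hγ) h1
    rwa [ap_snd (hγ.1 _ (Finset.mem_insert_self _ _))] at this) h)

theorem key_dense (hv : ∀ i < bd φ, Fixes (fx E₀ T₀) (v i)) {a : ℕ}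
    (ha : (false, a) ∉ E₀ ∪ F.image fun y => (false, y)) {p : Cn}
    (h0 : Force FS φ (cons (cN F A) (cons (xN a) v)) p)
    (hp : ∀ z ∈ p.1, z.pts ⊆ insert (false, a) (E₀ ∪ F.image fun y => (false, y))) {i : ℕ}
    (hi : ∀ b j e, At.y i b j e ∉ p.1) {Sn : Nm Cn} (hS : HS FS Sn) :
    Dn (Key φ F A i Sn v) p := by
  classical
  intro r hr
  obtain ⟨_, ⟨ES, TS, rfl⟩, hS⟩ := hS.symm
  obtain ⟨E, hE1, hE2⟩ : ∃ E : Finset Pt, E₀ ∪ F.image (fun y => (false, y)) ⊆ E ∧ ES ⊆ E :=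
    ⟨_, Finset.subset_union_left, Finset.subset_union_right⟩
  have hF : ∀ b, (false, b) ∉ E → b ∉ F := fun b h1 h2 =>
    h1 (hE1 (Finset.mem_union_right _ (Finset.mem_image_of_mem _ h2)))
  obtain ⟨r', hr', h1⟩ := ex_tot i (E.image Prod.snd) r
  obtain ⟨j, hj⟩ := Infinite.exists_notMem_finset ((T₀ ∪ TS ∪ r'.tgs).image Prod.snd)
  have hj' : (i, j) ∉ T₀ ∪ TS ∪ r'.tgs := fun h => hj (Finset.mem_image_of_mem _ h)
  obtain ⟨b, hb⟩ := ex_fresh false (E ∪ r'.pts)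
  simp only [Finset.mem_union, not_or] at hb
  have hsw := sw_mem (a := (false, a)) (c := b) ha (fun h => hb.1 (hE1 h)) T₀
  obtain ⟨s₁, h2, h3, h4⟩ := ex_le_sm r' p (sw (false, a) b) fun z hz => by
    by_cases h2 : (false, a) ∈ z.pts
    · exact Or.inr ⟨_, h2, by rw [sw_left]; exact hb.2⟩
    · left
      rw [sm_fix (fun y hy => hsw.1 y ?_) (fun _ _ => rfl)]
      · exact (hr'.trans hr) z hz
      · exact (Finset.mem_insert.1 (hp z hz hy)).resolve_left fun h3 => h2 (h3 ▸ hy)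
  obtain ⟨s₂, h5, h6, -⟩ := ex_add s₁ (.y i b j false) fun z hz h5 => by
    obtain ⟨j', e, rfl⟩ := co_y h5
    rcases h4 _ hz with h6 | h6
    · exact hb.2 (mem_pts h6 (by simp [At.pts]))
    · exact hi _ _ _ h6
  obtain ⟨s, h7, h8⟩ := exists_dec (xN b) Sn s₂
  have h9 : Force FS φ (cons (cN F A) (cons (xN b) v)) s := by
    have := force_sm hv hsw h0
    rw [show (sw (false, a) b).1 false a = b from congrArg Prod.snd (sw_left (false, a) b)] at this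
    exact this.mono (h7.trans (h5.trans h3))
  obtain ⟨b', hb'⟩ := ex_fresh false (E ∪ s.pts)
  simp only [Finset.mem_union, not_or] at hb'
  let γ : Gp := ((sw (false, b) b').1, fun t => if t = (i, j) then Equiv.swap false true else 1)
  have hγ : γ ∈ fx E (T₀ ∪ TS) := ⟨(sw_mem (a := (false, b)) (c := b') hb.1 hb'.1 ∅).1,
    fun t ht => if_neg fun h : t = (i, j) => hj' (Finset.mem_union_left _ (h ▸ ht))⟩
  have hγb : γ.1 false b = b' := congrArg Prod.snd (sw_left (false, b) b')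
  obtain ⟨t, h10, h11, -⟩ := ex_le_sm s (res (insert (false, b) E) s) γ fun z hz => by
    obtain ⟨h10, h11⟩ := mem_res.1 hz
    by_cases h12 : (false, b) ∈ z.pts
    · exact Or.inr ⟨_, h12, fun h13 => hb'.2 (by rwa [← hγb])⟩
    · have h13 : z.pts ⊆ E := fun y hy =>
        (Finset.mem_insert.1 (h11 hy)).resolve_left fun h3 => h12 (h3 ▸ hy)
      left
      rw [sm_fix (fun y hy => hγ.1 y (h13 hy)) (fun u hu => if_neg fun h14 => ?_)]
      · exact h10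
      · cases z with
        | d k y e => simp [At.tgs] at hu
        | y i' y j' e =>
          obtain ⟨rfl, rfl⟩ : i' = i ∧ j' = j := by simpa [At.tgs, h14, eq_comm] using hu
          obtain ⟨j'', e', h15⟩ := h1 y (Finset.mem_image.2 ⟨(false, y), h13 (by simp [At.pts]),
            rfl⟩)
          have h16 := s.2 _ h10 _ ((h7.trans (h5.trans h2)) _ h15) rfl
          rw [← h16] at h15
          exact hj' (Finset.mem_union_right _ (mem_tgs h15 (by simp [At.tgs])))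
  have hfx : ∀ δ ∈ fx (insert (false, b) E) TS, δ.1 false b = b ∧ δ ∈ fx ES TS := fun δ hδ =>
    ⟨ap_snd (hδ.1 _ (Finset.mem_insert_self _ _)),
      fx_mono (hE2.trans (Finset.subset_insert _ _)) le_rfl hδ⟩
  have hγS : γ ∈ fx ES TS := fx_mono hE2 Finset.subset_union_right hγ
  refine ⟨t, h10.trans (h7.trans (h5.trans (h2.trans hr'))), b, b', j, hF b hb.1, hF b' hb'.1,
    h10 _ (h7 _ h6), ?_, h9.mono h10, ?_, ?_⟩
  · have := le_sm_iff.1 h11 (.y i b j false) (mem_res.2 ⟨h7 _ h6, by simp [At.pts]⟩)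
    rw [sm_y, hγb] at this
    simpa [γ] using this
  · have := force_sm hv (fx_mono hE1 Finset.subset_union_left hγ) (force_res hv hE1 h9)
    rw [hγb] at this
    exact this.mono h11
  · rcases h8 with h8 | h8
    · refine Or.inl ⟨h8.mono h10, ?_⟩
      have h12 := fmem_of_dn (res_dn (insert (false, b) E) TS (fun _ _ => fmem.mono)
        (fun δ hδ p h => ((h.act δ).left ((hfx δ hδ).1 ▸ act_x δ b _ :)).right
          (hS δ (hfx δ hδ).2 _)) h8)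
      exact (((h12.act γ).left (hγb ▸ act_x γ b _ :)).right (hS γ hγS _)).mono h11
    · refine Or.inr ⟨h8.mono h10, ?_⟩
      have h12 := fnm_of_dn (res_dn (insert (false, b) E) TS (fun _ _ => fnm.mono)
        (fun δ hδ p h => (h.act δ).congr ((hfx δ hδ).1 ▸ act_x δ b _ :)
          (hS δ (hfx δ hδ).2 _)) h8)
      exact ((h12.act γ).congr (hγb ▸ act_x γ b _ :) (hS γ hγS _)).mono h11

end key

end Pool.Agent.H982Z.Nas
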