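import Pool.Agent.H982Z.Nas.Force

/-!
# Every infinite set is forced to split into two infinite parts
-/

set_option autoImplicit false

namespace Pool.Agent.H982Z.Nas

open Pool.Agent.H164Z.Bspt Pool.Agent.H982Z.Sym

/-- The link between a point and a point of the other sort. -/
def lk : Pt → ℕ → Bool → At
  | (true, k), n, e => .d k n e
  | (false, b), n, e => .d n b e

theorem lk_pts1 (a : Pt) (n : ℕ) (e : Bool) : a ∈ (lk a n e).pts := by
  rcases a with ⟨_ | _, a⟩ <;> simp [lk, At.pts]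

theorem lk_pts2 (a : Pt) (n : ℕ) (e : Bool) : (!a.1, n) ∈ (lk a n e).pts := by
  rcases a with ⟨_ | _, a⟩ <;> simp [lk, At.pts]

theorem lk_sm {γ : Gp} {a : Pt} {n : ℕ} (h : ap γ (!a.1, n) = (!a.1, n)) (e : Bool) :
    γ • lk a n e = lk (ap γ a) n e := by
  have h1 := congrArg Prod.snd h
  rcases a with ⟨_ | _, a⟩
  · change At.d (γ.1 true n) _ e = At.d n _ e
    rw [show γ.1 true n = n from h1]
  · change At.d _ (γ.1 false n) e = At.d _ n e
    rw [show γ.1 false n = n from h1]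

theorem lk_co (a : Pt) (n : ℕ) (e e' : Bool) : (lk a n e).co = (lk a n e').co := by
  rcases a with ⟨_ | _, a⟩ <;> rfl

theorem lk_ne (a : Pt) (n : ℕ) : lk a n true ≠ lk a n false := by
  rcases a with ⟨_ | _, a⟩ <;> simp [lk]

/-- Almost supported names. -/
def AS (F : Finset Pt) (w : Nm Cn) : Prop := HS FS w ∧ ∃ T, Fixes (fx F T) w

theorem AS.act {F : Finset Pt} {w : Nm Cn} (h : AS F w) {δ : Gp} (hδ : ∀ x ∈ F, ap δ x = x) :
    AS F (act δ w) := by
  obtain ⟨h1, T, h2⟩ := h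
  refine ⟨h1.act δ, T, fun σ hσ p => ?_⟩
  rw [act_act]
  refine fixes_congr h2 (fun x hx => ?_) (fun t ht => ?_) p
  · rw [ap_mul, hδ x hx, hσ.1 x hx]
  · change σ.2 t * δ.2 t = δ.2 t
    rw [hσ.2 t ht, one_mul]

theorem AS.finOrb {F : Finset Pt} {w : Nm Cn} (h : AS F w) (T' : Finset (ℕ × ℕ)) :
    FinOrb (fx F T') w := by
  classical
  obtain ⟨-, T, h2⟩ := h
  refine ⟨(Finset.univ : Finset (T → Equiv.Perm Bool)).toList.map fun f =>
    Sym.act ((1, fun t => if h : t ∈ T then f ⟨t, h⟩ else 1) : Gp) w, fun γ hγ =>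
    ⟨_, List.mem_map.2 ⟨fun t => γ.2 t.1, Finset.mem_toList.2 (Finset.mem_univ _), rfl⟩,
      fixes_congr h2 (fun x hx => hγ.1 x hx) fun t ht => ?_⟩⟩
  change γ.2 t = if _h : t ∈ T then γ.2 t else 1
  rw [dif_pos ht]

section min

variable {F : Finset Pt} {a : Pt} {Tw : Finset (ℕ × ℕ)} {w : Nm Cn} {q : Cn}

theorem inj0 (ha : a ∉ F) (hw : HS FS w) (hf : Fixes (fx (insert a F) Tw) w)
    (hq : ∀ z ∈ q.1, z.pts ⊆ insert a F)
    (hm : ∀ u ≤ q, ∀ w', AS F w' → ¬ feq w w' u) {c : ℕ} (hc : (a.1, c) ∉ insert a F) :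
    fne w (act (sw a c) w) q := by
  intro r hr h
  have hc1 : (a.1, c) ≠ a := fun h => hc (h.symm ▸ Finset.mem_insert_self _ _)
  have hc2 : (a.1, c) ∉ F := fun h => hc (Finset.mem_insert_of_mem h)
  have hsw : ∀ x ∈ F, ap (sw a c) x = x := (sw_mem ha hc2 ∅).1
  have h1 : feq w (act (sw a c) w) (res (insert (a.1, c) (insert a F)) r) := by
    refine feq_of_dn (res_dn _ Tw (fun _ _ => feq.mono) (fun γ hγ p h1 => ?_) h)
    have h2 := h1.act γ
    rw [act_act] at h2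
    refine (hf γ (fx_mono (Finset.subset_insert _ _) le_rfl hγ) _).symm.trans (h2.trans
      (fixes_congr hf (fun x hx => ?_) (fun t ht => ?_) _))
    · rw [ap_mul]
      refine hγ.1 _ ?_
      rcases Finset.mem_insert.1 hx with rfl | hx'
      · rw [sw_left]; exact Finset.mem_insert_self _ _
      · rw [hsw x hx']; exact Finset.mem_insert_of_mem hx
    · change γ.2 t * 1 = 1
      rw [hγ.2 t ht, one_mul]
  let wb := act (sw a c) w
  let x : Nm Cn := ⟨wb.ι, wb.A, fun i => wb.c i ⊓ LowerSet.Iic (res (insert (a.1, c) F) r)⟩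
  refine hm (res (insert (a.1, c) (insert a F)) r) (fun z hz => mem_res.2 ⟨hr z hz,
    (hq z hz).trans (Finset.subset_insert _ _)⟩) (orb (fx F (Tw ∪ r.tgs)) x)
    ⟨hs_orb (fx_mem _ _) fun i => (hw.act _).child i, _, fixes_orb _ _⟩
    (h1.trans (feq_of_mem (fun i u hu hi => ?_) (fun t u hu ht => ?_)))
  · have := fmem_orb (H := fx F (Tw ∪ r.tgs)) (x := x) (one_mem _) i (q := u) (by
      rw [inv_one, one_smul]
      refine ⟨hi, fun z hz => hu z (mem_res.2 ⟨(mem_res.1 hz).1, (mem_res.1 hz).2.trans ?_⟩)⟩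
      exact Finset.insert_subset_insert _ (Finset.subset_insert _ _))
    rwa [act_one] at this
  · obtain ⟨⟨γ, hγ⟩, i⟩ := t
    obtain ⟨h2, h3⟩ : γ⁻¹ • u ∈ wb.c i ∧ γ⁻¹ • u ≤ res (insert (a.1, c) F) r := ht
    have h4 := (fmem_child wb i h2).act γ
    rw [smul_inv_smul] at h4
    refine h4.right (feq.trans ?_ (h1.mono hu))
    have hT : ∀ t ∈ Tw, γ.2 t = 1 := fun t ht => hγ.2 t (Finset.mem_union_left _ ht)
    change feq (act γ (act (sw a c) w)) w u
    rw [act_act]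
    by_cases h5 : ap γ (a.1, c) = a
    · refine hf _ ⟨fun y hy => ?_, fun t ht => ?_⟩ u
      · rw [ap_mul]
        rcases Finset.mem_insert.1 hy with rfl | hy'
        · rw [sw_left, h5]
        · rw [hsw y hy', hγ.1 y hy']
      · change γ.2 t * 1 = 1
        rw [hT t ht, one_mul]
    · have h6 : ap γ (a.1, c) ∉ insert a F := fun h6 => by
        rcases Finset.mem_insert.1 h6 with h7 | h7
        · exact h5 h7
        · exact hc2 ((ap_inj γ (hγ.1 _ h7) : ap γ (a.1, c) = (a.1, c)) ▸ h7)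
      have h7 := sw_mem (a := (a.1, c)) (c := (ap γ (a.1, c)).2) hc h6 Tw
      have h8 : u ≤ sw (a.1, c) (ap γ (a.1, c)).2 • res (insert (a.1, c) (insert a F)) r := by
        refine le_sm_iff.2 fun z hz => ?_
        obtain ⟨h8, h9⟩ := mem_res.1 hz
        by_cases h10 : (a.1, c) ∈ z.pts
        · have h11 : z.pts ⊆ insert (a.1, c) F := fun y hy => by
            rcases Finset.mem_insert.1 (h9 hy) with h11 | h11
            · exact h11 ▸ Finset.mem_insert_self _ _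
            · rcases Finset.mem_insert.1 h11 with rfl | h12
              · exact absurd (pts_sort h10 hy rfl) hc1
              · exact Finset.mem_insert_of_mem h12
          rw [sm_congr (δ := γ) (fun y hy => ?_) (fun t ht => ?_)]
          · exact mem_inv_sm.1 (h3 z (mem_res.2 ⟨h8, h11⟩))
          · rcases Finset.mem_insert.1 (h11 hy) with rfl | h12
            · exact sw_left _ _
            · rw [h7.1 y (Finset.mem_insert_of_mem h12), hγ.1 y h12]
          · exact (hγ.2 t (Finset.mem_union_right _ (mem_tgs h8 ht))).symm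
        · rw [sm_fix (fun y hy => h7.1 y ?_) (fun _ _ => rfl)]
          · exact hu z hz
          · exact (Finset.mem_insert.1 (h9 hy)).resolve_left fun h11 => h10 (h11 ▸ hy)
      have h9 := (h1.act (sw (a.1, c) (ap γ (a.1, c)).2)).mono h8
      rw [act_act] at h9
      refine (fixes_congr hf (fun y hy => ?_) (fun t ht => ?_) u).trans
        (h9.symm.trans (hf _ h7 u))
      · rw [ap_mul, ap_mul]
        rcases Finset.mem_insert.1 hy with rfl | hy'
        · rw [sw_left]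
          exact (sw_left _ _).symm
        · rw [hsw y hy', hγ.1 y hy', h7.1 y hy]
      · change γ.2 t * 1 = 1 * 1
        rw [hT t ht]

theorem inj1 (ha : a ∉ F) (hw : HS FS w) (hf : Fixes (fx (insert a F) Tw) w)
    (hq : ∀ z ∈ q.1, z.pts ⊆ insert a F)
    (hm : ∀ u ≤ q, ∀ w', AS F w' → ¬ feq w w' u) {γ δ : Gp} (hγ : γ ∈ fx F Tw)
    (hδ : δ ∈ fx F Tw) (h : ap γ a ≠ ap δ a) : fne (act γ w) (act δ w) (γ • q) := by
  have h1 : (a.1, (ap (γ⁻¹ * δ) a).2) ∉ insert a F := fun h1 => by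
    change ap (γ⁻¹ * δ) a ∈ _ at h1
    rcases Finset.mem_insert.1 h1 with h2 | h2
    · refine h ?_
      rw [← ap_ap_inv γ (ap δ a), ← ap_mul γ⁻¹, h2]
    · have h3 := ap_inj _ ((mul_mem (inv_mem hγ) hδ).1 _ h2)
      exact ha (h3 ▸ h2)
  refine ((inj0 ha hw hf hq hm h1).act γ).congr (feq.refl _ _) ?_
  rw [act_act]
  refine fixes_congr hf (fun y hy => ?_) (fun t ht => ?_) _
  · rw [ap_mul]
    rcases Finset.mem_insert.1 hy with rfl | hy'
    · rw [sw_left]
      exact ap_ap_inv γ (ap δ y)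
    · rw [(sw_mem ha (fun h2 => h1 (Finset.mem_insert_of_mem h2)) ∅).1 y hy', hγ.1 y hy',
        hδ.1 y hy']
  · change γ.2 t * 1 = δ.2 t
    rw [hγ.2 t ht, hδ.2 t ht, one_mul]

theorem split_min {Z : Nm Cn} {TZ : Finset (ℕ × ℕ)} (hZ : Fixes (fx F TZ) Z) (ha : a ∉ F)
    (hw : HS FS w) (hf : Fixes (fx (insert a F) Tw) w) (hwZ : fmem w Z q)
    (hm : ∀ u ≤ q, ∀ w', AS F w' → ¬ feq w w' u) :
    ∃ T, HS FS T ∧ ∀ e, FInf FS (Half Z T e) q := by
  have hA : fmem w Z (res (insert a F) q) :=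
    fmem_of_dn (res_dn _ (Tw ∪ TZ) (fun _ _ => fmem.mono) (fun γ hγ p h1 =>
      ((h1.act γ).left (hf γ (fx_mono le_rfl Finset.subset_union_left hγ) _)).right
        (hZ γ (fx_mono (Finset.subset_insert _ _) Finset.subset_union_right hγ) _)) hwZ)
  have hB : ∀ u ≤ res (insert a F) q, ∀ w', AS F w' → ¬ feq w w' u := by
    intro u hu w' h1 h2
    obtain ⟨s, hs, h3⟩ := res_dn (insert a F) Tw
      (Φ := fun p => ∀ u ≤ p, ∀ w', AS F w' → ¬ feq w w' u)
      (fun _ _ h h' u hu => h u (hu.trans h')) (fun γ hγ p h u hu w' h3 h4 =>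
        h _ ((le_sm γ).1 hu) _ (h3.act fun x hx => (inv_mem hγ).1 x (Finset.mem_insert_of_mem hx))
          ((hf _ (inv_mem hγ) _).symm.trans (h4.act γ⁻¹))) hm u hu
    exact h3 s le_rfl w' h1 (h2.mono hs)
  have hI := fun γ δ => inj1 (γ := γ) (δ := δ) ha hw hf (fun z hz => (mem_res.1 hz).2) hB
  obtain ⟨n, hn⟩ := ex_fresh (!a.1) (insert a F)
  have hne : ∀ c, (a.1, c) ≠ (!a.1, n) := fun c h => by simpa using congrArg Prod.fst h
  have hsw : ∀ c, (a.1, c) ∉ insert a F → ∀ T, sw a c ∈ fx (insert (!a.1, n) F) T :=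
    fun c hc T => sw_mem (fun h => (Finset.mem_insert.1 h).elim (hne a.2) ha)
      (fun h => (Finset.mem_insert.1 h).elim (hne c) fun h => hc (Finset.mem_insert_of_mem h)) T
  have hle : ∀ T, fx (insert (!a.1, n) F) T ≤ fx F T :=
    fun T => fx_mono (Finset.subset_insert _ _) le_rfl
  let x : Nm Cn := ⟨Unit, fun _ => w, fun _ => ⟨{s | lk a n true ∈ s.1}, fun _ _ h h' => h _ h'⟩⟩
  refine ⟨orb (fx (insert (!a.1, n) F) Tw) x, hs_orb (fx_mem _ _) fun _ => hw, fun e => ?_⟩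
  refine finf_of_family (I := {c : ℕ // (a.1, c) ∉ insert a F}) (fun c => act (sw a c.1) w)
    (fun c s => s ≤ sw a c.1 • res (insert a F) q ∧ lk (a.1, c.1) n e ∈ s.1)
    (fun _ _ _ h h' => ⟨h'.trans h.1, h' _ h.2⟩) (fun _ => hw.act _) (fun c s h => ?_)
    (fun c c' s hc h _ => ?_) (fun J r hr => ?_)
  · have h1 : fmem (act (sw a c.1) w) Z s :=
      ((hA.act _).mono h.1).right (hZ _ (hle _ (hsw c.1 c.2 TZ)) s)
    cases e with
    | true =>
      refine ⟨h1, fmem_orb (x := x) (hsw c.1 c.2 Tw) () (mem_inv_sm.2 ?_)⟩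
      rw [lk_sm ((hsw c.1 c.2 Tw).1 _ (Finset.mem_insert_self _ _)), sw_left]
      exact h.2
    | false =>
      refine ⟨h1, fun u hu h2 => ?_⟩
      obtain ⟨r, hr, γ, hγ, i, h3, h4⟩ := orb_cases h2
      have h5 : γ • lk a n true ∈ r.1 := mem_inv_sm.1 h3
      rw [lk_sm (hγ.1 _ (Finset.mem_insert_self _ _))] at h5
      refine hI _ γ (hle _ (hsw c.1 c.2 Tw)) (hle _ hγ) (fun h6 => ?_) r
        (hr.trans (hu.trans h.1)) h4
      rw [← h6, sw_left] at h5
      exact lk_ne _ _ (r.2 _ h5 _ ((hr.trans hu) _ h.2) (lk_co _ _ _ _))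
  · refine hI _ _ (hle _ (hsw c.1 c.2 Tw)) (hle _ (hsw c'.1 c'.2 Tw)) (fun h1 => ?_) s h.1
    rw [sw_left, sw_left] at h1
    exact hc (Subtype.ext (congrArg Prod.snd h1))
  · obtain ⟨c, hc⟩ := ex_fresh a.1 (insert a F ∪ r.pts ∪ J.image fun c => (a.1, c.1))
    simp only [Finset.mem_union, not_or] at hc
    obtain ⟨s, h1, h2, h3⟩ := ex_le_sm r (res (insert a F) q) (sw a c) fun z hz => by
      by_cases h1 : a ∈ z.pts
      · exact Or.inr ⟨a, h1, by rw [sw_left]; exact hc.1.2⟩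
      · left
        rw [sm_fix (fun y hy => (hle _ (hsw c hc.1.1 ∅)).1 y ?_) (fun _ _ => rfl)]
        · exact hr z (mem_res.1 hz).1
        · exact (Finset.mem_insert.1 ((mem_res.1 hz).2 hy)).resolve_left fun h2 => h1 (h2 ▸ hy)
    obtain ⟨t, h4, h5, -⟩ := ex_add s (lk (a.1, c) n e) fun z hz h4 => by
      rcases h3 z hz with h5 | h5
      · exact hc.1.2 (mem_pts h5 (pts_co h4 ▸ lk_pts1 _ _ _))
      · refine hn ((mem_res.1 h5).2 ?_)
        rw [pts_sm, pts_co h4]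
        exact Finset.mem_image.2 ⟨_, lk_pts2 _ _ _,
          (inv_mem (hsw c hc.1.1 ∅)).1 _ (Finset.mem_insert_self _ _)⟩
    exact ⟨t, h4.trans h1, ⟨c, hc.1.1⟩, fun h6 => hc.2 (Finset.mem_image_of_mem _ h6),
      h4.trans h2, h5⟩

end min

theorem split {Z : Nm Cn} (hZ : HS FS Z) {p : Cn} (h : FInf FS (fun z q => fmem z Z q) p) :
    ∃ q ≤ p, ∃ T, HS FS T ∧ ∀ e, FInf FS (Half Z T e) q := by
  classical
  obtain ⟨_, ⟨E, TE, rfl⟩, hE⟩ := hZ.symm
  by_cases h1 : FInf FS (fun z q => fmem z Z q ∧ FinOrb (fx E TE) z) p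
  · exact ⟨p, le_rfl, split_fin (fx_mem _ _) h1⟩
  obtain ⟨l, h1⟩ := not_forall.1 h1
  obtain ⟨r, h1⟩ := not_forall.1 h1
  obtain ⟨hr, h1⟩ := Classical.not_imp.1 h1
  obtain ⟨r', hr', z, hz, h2, h3⟩ := h l r hr
  have h4 : ∃ n, ∃ F, E ⊆ F ∧ F.card = n ∧ ∃ s ≤ r', ∃ w, AS F w ∧ feq z w s := by
    obtain ⟨_, ⟨F, T, rfl⟩, hF⟩ := hz.symm
    exact ⟨_, E ∪ F, Finset.subset_union_left, rfl, r', le_rfl, z,
      ⟨hz, T, hF.mono (fx_mono Finset.subset_union_right le_rfl)⟩, feq.refl _ _⟩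
  obtain ⟨F, h5, h6, s, hs, w, h7, h8⟩ := Nat.find_spec h4
  have h9 : ¬ F ⊆ E := fun h9 => by
    obtain rfl : F = E := Finset.Subset.antisymm h9 h5
    exact h1 ⟨s, hs.trans hr', w, h7.1, ⟨(h2.mono hs).left h8, h7.finOrb TE⟩,
      fun y hy => ((h3 y hy).mono hs).congr h8 (feq.refl _ _)⟩
  obtain ⟨a, h10, h11⟩ := Finset.not_subset.1 h9
  have h12 : E ⊆ F.erase a := fun y hy =>
    Finset.mem_erase.2 ⟨fun h => h11 (h ▸ hy), h5 hy⟩
  obtain ⟨h13, Tw, h14⟩ := h7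
  refine ⟨s, hs.trans (hr'.trans hr), split_min (F := F.erase a) (a := a) (Tw := Tw)
    (hE.mono (fx_mono h12 le_rfl)) (Finset.notMem_erase a F) h13
    (by rwa [Finset.insert_erase h10]) ((h2.mono hs).left h8) fun u hu w' h15 h16 => ?_⟩
  exact Nat.find_min h4 (h6 ▸ Finset.card_erase_lt_of_mem h10)
    ⟨_, h12, rfl, u, hu.trans hs, w', h15, (h8.mono hu).trans h16⟩

end Pool.Agent.H982Z.Nas
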