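import Pool.Agent.H982Z.Nas.Defs
import Pool.Agent.H982Z.Sym.Ext

/-!
# The topological part
-/

set_option autoImplicit false

namespace Pool.Agent.H982Z.Nas

open Pool.Agent.H164Z.Bspt Pool.Agent.H982Z.Scat Pool.Agent.H982Z.Sym

variable {N : Type} (S : Str N)

/-- The combinatorial properties of the model. -/
structure Iface (d x : ℕ → N) (C : Finset ℕ → (ℕ → Prop) → N) : Prop where
  wf : WellFounded S.E
  memC : ∀ F s z, S.E z (C F s) ↔ ∃ k, z = d k ∧ ∀ y ∈ F, (S.E (x y) (d k) ↔ s y)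
  dec : ∀ A : N, ∃ F W : Finset ℕ, ∀ k k', k ∉ W → k' ∉ W →
    (∀ y ∈ F, (S.E (x y) (d k) ↔ S.E (x y) (d k'))) → S.E (d k) A → S.E (d k') A
  pat : ∀ F s, {z | S.E z (C F s)}.Infinite
  key : ∀ R : N → N → Prop, D2 S R → ∃ E₀ : Finset ℕ, ∀ F s a, a ∉ E₀ → a ∉ F →
    R (C F s) (x a) → ∃ (Op : N) (col : ℕ → Prop),
      (∀ u y y', S.E u Op → S.E y u → S.E y' u → y ≠ y' →
        ∃ b b', y = x b ∧ y' = x b' ∧ ¬ (col b ↔ col b')) ∧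
      ∀ A : N, ∃ u b b', S.E u Op ∧ S.E (x b) u ∧ S.E (x b') u ∧ x b ≠ x b' ∧
        (∀ y ∈ F, x b ≠ x y ∧ x b' ≠ x y) ∧ R (C F s) (x b) ∧ R (C F s) (x b') ∧
        (S.E (x b) A ↔ S.E (x b') A)

/-- A compactification. -/
structure Ctx (D K τ D' h : N) : Prop where
  wf : WellFounded S.E
  top : IsTop S.E K τ
  haus : Hausdorff S.E K τ
  comp : Compact S.E K τ
  sub : Sub S.E D' K
  bij : IsBij S.E h D D'
  dense : ∀ U, S.E U τ → (∃ x, S.E x U) → ∃ x, S.E x U ∧ S.E x D'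
  disc : ∀ A, Sub S.E A D' → ∃ U, S.E U τ ∧ ∀ t, S.E t A ↔ S.E t U ∧ S.E t D'

/-- `r` is in the closure of the image of the class `Q`. -/
abbrev Cl (τ h : N) (Q : N → Prop) (r : N) : Prop :=
  ∀ U, S.E U τ → S.E r U → ∃ z w, Q z ∧ Rel S.E h z w ∧ S.E w U

/-- The closures of the images of `Q` and `Q'` meet in the remainder. -/
abbrev Near (K τ D' h : N) (Q Q' : N → Prop) : Prop :=
  ∃ r, S.E r K ∧ ¬ S.E r D' ∧ Cl S τ h Q r ∧ Cl S τ h Q' r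

namespace Ctx

variable {S} {D K τ D' h : N} (c : Ctx S D K τ D' h)
include c

theorem inter {U V : N} (hU : S.E U τ) (hV : S.E V τ) :
    ∃ W, S.E W τ ∧ ∀ t, S.E t W ↔ S.E t U ∧ S.E t V := by
  obtain ⟨W, hW⟩ := S.sep (fun t => S.E t V) U
  exact ⟨W, c.top.inter U V W hU hV hW, hW⟩

theorem finter {r : N} (hr : S.E r K) {s : Set N} (hs : s.Finite) (Q : N → N → Prop)
    (hQ : ∀ y U V, Q y U → Sub S.E V U → Q y V)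
    (h1 : ∀ y ∈ s, ∃ U, S.E U τ ∧ S.E r U ∧ Q y U) :
    ∃ U, S.E U τ ∧ S.E r U ∧ ∀ y ∈ s, Q y U := by
  induction s, hs using Set.Finite.induction_on with
  | empty => exact ⟨K, c.top.univ, hr, fun _ h => h.elim⟩
  | insert _ _ ih =>
    rename_i a s _ _
    obtain ⟨U, h2, h3, h4⟩ := ih fun y hy => h1 y (Set.mem_insert_of_mem _ hy)
    obtain ⟨V, h5, h6, h7⟩ := h1 a (Set.mem_insert _ _)
    obtain ⟨W, h8, h9⟩ := c.inter h2 h5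
    refine ⟨W, h8, (h9 r).2 ⟨h3, h6⟩, fun y hy => ?_⟩
    rcases hy with rfl | hy
    · exact hQ _ _ _ h7 fun t ht => ((h9 t).1 ht).2
    · exact hQ _ _ _ (h4 y hy) fun t ht => ((h9 t).1 ht).1

theorem avoid {r : N} (hr : S.E r K) {s : Set N} (hs : s.Finite) (h1 : r ∉ s) :
    ∃ U, S.E U τ ∧ S.E r U ∧ ∀ y ∈ s, ¬ S.E y U :=
  c.finter hr hs (fun y U => ¬ S.E y U) (fun _ _ _ h h' h'' => h (h' _ h'')) fun y hy => by
    by_cases h2 : S.E y K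
    · obtain ⟨U, V, h3, -, h4, h5, h6⟩ := c.haus r y hr h2 (fun h => h1 (h ▸ hy))
      exact ⟨U, h3, h4, fun h7 => h6 y ⟨h7, h5⟩⟩
    · exact ⟨K, c.top.univ, hr, h2⟩

theorem cl_mono {Q Q' : N → Prop} {r : N} (h1 : Cl S τ h Q r)
    (h2 : ∀ z, S.E z D → Q z → Q' z) : Cl S τ h Q' r := fun U hU hr => by
  obtain ⟨z, w, h3, h4, h5⟩ := h1 U hU hr
  exact ⟨z, w, h2 z (S.bij_rel c.bij h4).1 h3, h4, h5⟩

theorem cl_or {Q Q' : N → Prop} {r : N} (h1 : Cl S τ h (fun z => Q z ∨ Q' z) r) :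
    Cl S τ h Q r ∨ Cl S τ h Q' r := by
  by_contra h2
  simp only [not_or, not_forall] at h2
  obtain ⟨⟨U, hU, hr, h2⟩, V, hV, hr', h3⟩ := h2
  obtain ⟨W, h4, h5⟩ := c.inter hU hV
  obtain ⟨z, w, h6, h7, h8⟩ := h1 W h4 ((h5 r).2 ⟨hr, hr'⟩)
  rcases h6 with h6 | h6
  · exact h2 ⟨z, w, h6, h7, ((h5 w).1 h8).1⟩
  · exact h3 ⟨z, w, h6, h7, ((h5 w).1 h8).2⟩

theorem ex_fun : ∃ g : N → N, ∀ z w, Rel S.E h z w → w = g z := by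
  have h1 : ∀ z, ∃ y, ∀ w, Rel S.E h z w → w = y := fun z => by
    by_cases hz : S.E z D
    · obtain ⟨y, -, hy⟩ := c.bij.2.1 z hz
      exact ⟨y, hy⟩
    · exact ⟨z, fun w hw => absurd (S.bij_rel c.bij hw).1 hz⟩
  choose g hg using h1
  exact ⟨g, hg⟩

theorem cl_fin {Q : N → Prop} {r : N} (hr : S.E r K) (hr' : ¬ S.E r D') (h1 : Cl S τ h Q r)
    {s : Set N} (hs : s.Finite) : Cl S τ h (fun z => Q z ∧ z ∉ s) r := fun U hU hrU => by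
  obtain ⟨g, hg⟩ := c.ex_fun
  obtain ⟨V, h2, h3, h4⟩ := c.avoid hr ((hs.image g).inter_of_left {y | S.E y D'})
    fun h => hr' h.2
  obtain ⟨W, h5, h6⟩ := c.inter hU h2
  obtain ⟨z, w, h7, h8, h9⟩ := h1 W h5 ((h6 r).2 ⟨hrU, h3⟩)
  exact ⟨z, w, ⟨h7, fun h10 => h4 w ⟨⟨z, h10, (hg z w h8).symm⟩, (S.bij_rel c.bij h8).2⟩
    ((h6 w).1 h9).2⟩, h8, ((h6 w).1 h9).1⟩

theorem cl_top {r : N} : Cl S τ h (fun _ => True) r := fun U hU hr => by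
  obtain ⟨w, h1, h2⟩ := c.dense U hU ⟨r, hr⟩
  obtain ⟨z, h3, -⟩ := c.bij.2.2 w h2
  exact ⟨z, w, trivial, h3, h1⟩

theorem iso {x : N} (hx : S.E x D') : ∃ U, S.E U τ ∧ ∀ t, S.E t U ↔ t = x := by
  obtain ⟨A, hA⟩ := S.zf.pair x x
  obtain ⟨U, h1, h2⟩ := c.disc A fun t ht => by
    rcases (hA t).1 ht with rfl | rfl <;> exact hx
  refine ⟨U, h1, fun t => ⟨fun ht => ?_, fun ht => ht ▸ ((h2 x).1 ((hA x).2 (Or.inl rfl))).1⟩⟩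
  by_contra h3
  obtain ⟨V, h4, h5, h6⟩ := c.avoid (c.top.sub U h1 t ht) (Set.finite_singleton x) h3
  obtain ⟨W, h7, h8⟩ := c.inter h1 h4
  obtain ⟨w, h9, h10⟩ := c.dense W h7 ⟨t, (h8 t).2 ⟨ht, h5⟩⟩
  have h11 : w = x := ((hA w).1 ((h2 w).2 ⟨((h8 w).1 h9).1, h10⟩)).elim id id
  exact h6 x rfl (h11 ▸ ((h8 w).1 h9).2)

theorem cover (Q : N → Prop) [Df S (fun v => Q (v 0))]
    (h1 : ∀ x, S.E x K → ∃ U, S.E U τ ∧ S.E x U ∧ Q U) :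
    ∃ B, {U | S.E U B}.Finite ∧ (∀ U, S.E U B → S.E U τ ∧ Q U) ∧
      ∀ x, S.E x K → ∃ U, S.E U B ∧ S.E x U := by
  obtain ⟨A, hA⟩ := S.sep Q τ
  obtain ⟨B, h2, h3, h4⟩ := c.comp A (fun t ht => ((hA t).1 ht).1) fun x hx => by
    obtain ⟨U, h2, h3, h4⟩ := h1 x hx
    exact ⟨U, (hA U).2 ⟨h2, h4⟩, h3⟩
  exact ⟨B, (isFin_iff S c.wf B).1 h3, fun U hU => (hA U).1 (h2 U hU), h4⟩

theorem regular {x a : N} (hx : S.E x K) (h1 : ¬ Cl S τ h (fun z => S.E z a) x) :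
    ∃ U, S.E U τ ∧ S.E x U ∧ ∀ r, S.E r K → Cl S τ h (fun z => S.E z a) r →
      ¬ Cl S τ h (fun z => ∃ w, Rel S.E h z w ∧ S.E w U) r := by
  obtain ⟨B, h2, h3, h4⟩ := c.cover (fun W => (¬ ∃ z w, S.E z a ∧ Rel S.E h z w ∧ S.E w W) ∨
      ∃ U, S.E U τ ∧ S.E x U ∧ ∀ t, ¬ (S.E t U ∧ S.E t W)) fun y hy => by
    by_cases h2 : x = y
    · simp only [not_forall] at h1
      obtain ⟨U, h3, h4, h5⟩ := h1
      exact ⟨U, h3, h2 ▸ h4, Or.inl h5⟩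
    · obtain ⟨U, V, h3, h4, h5, h6, h7⟩ := c.haus x y hx hy h2
      exact ⟨V, h4, h6, Or.inr ⟨U, h3, h5, h7⟩⟩
  obtain ⟨U, h5, h6, h7⟩ := c.finter hx h2 (fun W U =>
      (¬ ∃ z w, S.E z a ∧ Rel S.E h z w ∧ S.E w W) ∨ ∀ t, ¬ (S.E t U ∧ S.E t W))
      (fun _ _ _ h h' => h.imp_right fun h1 t h2 => h1 t ⟨h' t h2.1, h2.2⟩) fun W hW => by
    rcases (h3 W hW).2 with h5 | ⟨U, h5, h6, h7⟩
    · exact ⟨K, c.top.univ, hx, Or.inl h5⟩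
    · exact ⟨U, h5, h6, Or.inr h7⟩
  refine ⟨U, h5, h6, fun r hr h8 h9 => ?_⟩
  obtain ⟨W, h10, h11⟩ := h4 r hr
  rcases h7 W h10 with h12 | h12
  · exact h12 (h8 W (h3 W h10).1 h11)
  · obtain ⟨z, w, ⟨w', h13, h14⟩, h15, h16⟩ := h9 W (h3 W h10).1 h11
    obtain ⟨g, hg⟩ := c.ex_fun
    exact h12 w ⟨by rwa [hg z w h15, ← hg z w' h13], h16⟩

theorem separate {a b : N} (h1 : ¬ Near S K τ D' h (fun z => S.E z a) (fun z => S.E z b)) :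
    ∃ A, ¬ Near S K τ D' h (fun z => S.E z A) (fun z => S.E z b) ∧
      ¬ Near S K τ D' h (fun z => S.E z a) (fun z => ¬ S.E z A) := by
  obtain ⟨B, h2, h3, h4⟩ := c.cover (fun W => Sub S.E W D' ∨
      (¬ ∃ z w, S.E z a ∧ Rel S.E h z w ∧ S.E w W) ∨
      ∀ r, S.E r K → Cl S τ h (fun z => S.E z b) r →
        ¬ Cl S τ h (fun z => ∃ w, Rel S.E h z w ∧ S.E w W) r) fun y hy => by
    by_cases h2 : S.E y D'
    · obtain ⟨U, h3, h4⟩ := c.iso h2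
      exact ⟨U, h3, (h4 y).2 rfl, Or.inl fun t ht => (h4 t).1 ht ▸ h2⟩
    by_cases h3 : Cl S τ h (fun z => S.E z a) y
    · obtain ⟨U, h4, h5, h6⟩ := c.regular hy fun h4 => h1 ⟨y, hy, h2, h3, h4⟩
      exact ⟨U, h4, h5, Or.inr (Or.inr h6)⟩
    · simp only [not_forall] at h3
      obtain ⟨U, h4, h5, h6⟩ := h3
      exact ⟨U, h4, h5, Or.inr (Or.inl h6)⟩
  obtain ⟨A, hA⟩ := S.sep (fun z => ∃ W, S.E W B ∧ (∀ r, S.E r K →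
    Cl S τ h (fun z => S.E z b) r → ¬ Cl S τ h (fun z => ∃ w, Rel S.E h z w ∧ S.E w W) r) ∧
    ∃ w, Rel S.E h z w ∧ S.E w W) D
  refine ⟨A, ?_, ?_⟩
  · rintro ⟨r, hr, -, h5, h6⟩
    obtain ⟨U, h7, h8, h9⟩ := c.finter hr h2 (fun W U => (∀ r, S.E r K →
        Cl S τ h (fun z => S.E z b) r → ¬ Cl S τ h (fun z => ∃ w, Rel S.E h z w ∧ S.E w W) r) →
        ¬ ∃ z w, (∃ w, Rel S.E h z w ∧ S.E w W) ∧ Rel S.E h z w ∧ S.E w U)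
        (fun _ _ _ h h' h1 ⟨z, w, h2, h3, h4⟩ => h h1 ⟨z, w, h2, h3, h' w h4⟩) fun W _ => by
      by_cases h7 : Cl S τ h (fun z => ∃ w, Rel S.E h z w ∧ S.E w W) r
      · exact ⟨K, c.top.univ, hr, fun h8 => absurd h7 (h8 r hr h6)⟩
      · simp only [not_forall] at h7
        obtain ⟨U, h8, h9, h10⟩ := h7
        exact ⟨U, h8, h9, fun _ => h10⟩
    obtain ⟨z, w, h10, h11, h12⟩ := h5 U h7 h8
    obtain ⟨-, W, h13, h14, h15⟩ := (hA z).1 h10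
    exact h9 W h13 h14 ⟨z, w, h15, h11, h12⟩
  · rintro ⟨r, hr, hr', h5, h6⟩
    obtain ⟨W, h7, h8⟩ := h4 r hr
    rcases h3 W h7 with ⟨h9, h10 | h10 | h10⟩
    · exact hr' (h10 r h8)
    · exact h10 (h5 W h9 h8)
    · obtain ⟨z, w, h11, h12, h13⟩ := h6 W h9 h8
      exact h11 ((hA z).2 ⟨(S.bij_rel c.bij h12).1, W, h7, h10, w, h12, h13⟩)

theorem scattered (h1 : {r | S.E r K ∧ ¬ S.E r D'}.Finite) : Scattered S.E τ K := by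
  rintro Z hZ ⟨z, hz⟩
  by_cases h2 : ∃ z, S.E z Z ∧ S.E z D'
  · obtain ⟨z, h2, h3⟩ := h2
    obtain ⟨U, h4, h5⟩ := c.iso h3
    exact ⟨z, U, h4, fun w => ⟨fun h => (h5 w).1 h.1, fun h => ⟨(h5 w).2 h, h ▸ h2⟩⟩⟩
  · obtain ⟨U, h3, h4, h5⟩ := c.avoid (hZ z hz) (h1.subset (Set.sdiff_subset (t := {z}))) fun h => h.2 rfl
    refine ⟨z, U, h3, fun w => ⟨fun h => ?_, fun h => h ▸ ⟨h4, hz⟩⟩⟩
    by_contra h6
    exact h5 w ⟨⟨hZ w h.2, fun h7 => h2 ⟨w, h.2, h7⟩⟩, h6⟩ h.1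

end Ctx

end Pool.Agent.H982Z.Nas
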